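import Pool.Agent.Y900.HY.Loc

/-!
# The differentials `dz / (z - a_i)`
-/

set_option autoImplicit false

open Filter Set Polynomial
open scoped Topology

namespace Pool.Agent.Y900.HY

/-- if the derivative of an algebraic element is in the base field, then it is the derivative of an element of the base
field -/
theorem exists_der {k E : Type} [Field k] [Field E] [CharZero E] [Algebra k E] (D : Derivation k E E)
    (L : IntermediateField k E) (hL : ∀ y ∈ L, D y ∈ L) {g : E} (hg : IsAlgebraic L g) (hDg : D g ∈ L) :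
    ∃ r ∈ L, D r = D g := by
  classical
  have hint : IsIntegral L g := hg.isIntegral
  set q := minpoly L g with hq
  have hmon : q.Monic := minpoly.monic hint
  have hN : 0 < q.natDegree := minpoly.natDegree_pos hint
  set N := q.natDegree with hNdef
  -- the polynomial with differentiated coefficients
  let R : L[X] := (∑ i ∈ Finset.range N, Polynomial.monomial i (⟨D (q.coeff i : E), hL _ (q.coeff i).2⟩ : L)) +
    C (⟨D g, hDg⟩ : L) * derivative q
  have h1 : D (aeval g q) = aeval g R := by
    have e1 : aeval g q = ∑ i ∈ Finset.range (N + 1), (q.coeff i : E) * g ^ i := by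
      rw [aeval_eq_sum_range]
      refine Finset.sum_congr rfl fun i _ => ?_
      rw [Algebra.smul_def]
      rfl
    have e2 : aeval g R = (∑ i ∈ Finset.range N, D (q.coeff i : E) * g ^ i) + D g * aeval g (derivative q) := by
      simp only [R]
      rw [map_add, map_sum, map_mul, aeval_C]
      congr 1
      refine Finset.sum_congr rfl fun i _ => ?_
      rw [aeval_monomial]
      rfl
    have e3 : aeval g (derivative q) = ∑ i ∈ Finset.range (N + 1), (q.coeff i : E) * ((i : E) * g ^ (i - 1)) := by
      conv_lhs => rw [q.as_sum_range_C_mul_X_pow]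
      rw [derivative_sum, map_sum]
      refine Finset.sum_congr rfl fun i _ => ?_
      rw [derivative_C_mul_X_pow, map_mul, aeval_C, map_pow, aeval_X, map_mul, map_natCast]
      rw [mul_assoc]
      rfl
    rw [e1, e2, e3, map_sum, Finset.mul_sum]
    have e4 : ∀ i, D ((q.coeff i : E) * g ^ i) = D (q.coeff i : E) * g ^ i +
        D g * ((q.coeff i : E) * ((i : E) * g ^ (i - 1))) := by
      intro i
      rw [Derivation.leibniz, Derivation.leibniz_pow]
      simp only [smul_eq_mul, nsmul_eq_mul]
      ring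
    rw [Finset.sum_congr rfl fun i _ => e4 i, Finset.sum_add_distrib]
    congr 1
    rw [Finset.sum_range_succ]
    have e5 : q.coeff N = 1 := hmon.coeff_natDegree
    rw [e5]
    have e6 : D ((1 : L) : E) = 0 := by
      have : ((1 : L) : E) = 1 := rfl
      rw [this, D.map_one_eq_zero]
    rw [e6, zero_mul, add_zero]
  have h2 : aeval g R = 0 := by
    rw [← h1, minpoly.aeval, map_zero]
  have hdeg : R.natDegree < N := by
    refine lt_of_le_of_lt (natDegree_add_le _ _) (max_lt ?_ ?_)
    · refine lt_of_le_of_lt (natDegree_sum_le_of_forall_le (n := N - 1) _ _ fun i hi => ?_) (by omega)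
      refine (natDegree_monomial_le _).trans ?_
      have := Finset.mem_range.1 hi
      omega
    · refine lt_of_le_of_lt (natDegree_C_mul_le _ _) ?_
      exact lt_of_le_of_lt (natDegree_derivative_le _) (by omega)
  have hR : R = 0 := by
    by_contra hne
    have h3 : q.natDegree ≤ R.natDegree := natDegree_le_natDegree (minpoly.degree_le_of_ne_zero L g hne h2)
    omega
  have hco : (R.coeff (N - 1) : E) = 0 := by rw [hR]; rfl
  have hco2 : R.coeff (N - 1) = (⟨D (q.coeff (N - 1) : E), hL _ (q.coeff (N - 1)).2⟩ : L) + (⟨D g, hDg⟩ : L) * (N : L) := by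
    simp only [R]
    rw [coeff_add, finsetSum_coeff, Finset.sum_eq_single (N - 1)]
    · rw [coeff_monomial, if_pos rfl, coeff_C_mul, coeff_derivative]
      have e7 : N - 1 + 1 = N := by omega
      have e8 : q.coeff N = 1 := hmon.coeff_natDegree
      rw [e7, e8, one_mul]
      congr 2
      have e9 : ((N - 1 : ℕ) : L) + 1 = ((N - 1 + 1 : ℕ) : L) := by push_cast; rfl
      rw [e9, e7]
    · intro i _ hi
      rw [coeff_monomial, if_neg hi]
    · intro h
      exact absurd (Finset.mem_range.2 (by omega)) h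
  rw [hco2] at hco
  have hco3 : D (q.coeff (N - 1) : E) + D g * (N : E) = 0 := hco
  have hN0 : (N : E) ≠ 0 := by exact_mod_cast hN.ne'
  refine ⟨-((N : E)⁻¹ * (q.coeff (N - 1) : E)), neg_mem (mul_mem (inv_mem (natCast_mem _ _)) (q.coeff (N - 1)).2), ?_⟩
  have h5 : D ((N : E)⁻¹ * (q.coeff (N - 1) : E)) = (N : E)⁻¹ * D (q.coeff (N - 1) : E) := by
    have h6 : ((N : E)⁻¹ * (q.coeff (N - 1) : E)) = algebraMap k E ((N : k)⁻¹) * (q.coeff (N - 1) : E) := by
      rw [map_inv₀, map_natCast]
    have h7 : algebraMap k E ((N : k)⁻¹) = (N : E)⁻¹ := by rw [map_inv₀, map_natCast]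
    rw [h6, Derivation.leibniz, Derivation.map_algebraMap, smul_zero, add_zero, smul_eq_mul, h7]
  rw [map_neg, h5, eq_neg_of_add_eq_zero_left hco3]
  field_simp

/-- a rational function whose derivative has only simple poles -/
theorem rat_prim {k : Type} [Field k] [CharZero k] {ι : Type} [Fintype ι] [DecidableEq ι] (a : ι → k)
    (ha : Function.Injective a) (c : ι → k) (P Q : k[X]) (hQ : Q ≠ 0)
    (h : (derivative P * Q - P * derivative Q) * ∏ i, (X - C (a i)) =
      Q ^ 2 * ∑ i, C (c i) * ∏ j ∈ Finset.univ.erase i, (X - C (a j))) (l : ι) : c l = 0 := by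
  classical
  set S : k[X] := ∑ i, C (c i) * ∏ j ∈ Finset.univ.erase i, (X - C (a j)) with hS
  set G1 : k[X] := ∏ j ∈ Finset.univ.erase l, (X - C (a j)) with hG1
  have hSl : S.eval (a l) = c l * G1.eval (a l) := by
    rw [hS, eval_finsetSum, Finset.sum_eq_single l]
    · rw [eval_mul, eval_C]
    · intro i _ hi
      rw [eval_mul, eval_prod, Finset.prod_eq_zero (Finset.mem_erase.2 ⟨hi.symm, Finset.mem_univ l⟩), mul_zero]
      simp
    · intro h
      exact absurd (Finset.mem_univ _) h
  have hG0 : G1.eval (a l) ≠ 0 := by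
    rw [hG1, eval_prod, Finset.prod_ne_zero_iff]
    intro j hj
    rw [eval_sub, eval_X, eval_C, sub_ne_zero]
    intro hcon
    exact (Finset.mem_erase.1 hj).1 (ha hcon).symm
  have hprod : ∏ i, (X - C (a i)) = (X - C (a l)) * G1 := (Finset.mul_prod_erase _ _ (Finset.mem_univ l)).symm
  suffices hmain : S.eval (a l) = 0 by
    rw [hSl] at hmain
    exact (mul_eq_zero.1 hmain).resolve_right hG0
  by_cases hP : P = 0
  · rw [hP, derivative_zero, zero_mul, zero_mul, sub_zero, zero_mul] at h
    have h1 : S = 0 := by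
      rcases mul_eq_zero.1 h.symm with h2 | h2
      · exact absurd (pow_eq_zero_iff (two_ne_zero)|>.1 h2) hQ
      · exact h2
    rw [h1, eval_zero]
  obtain ⟨P1, hP1, hP1n⟩ := Polynomial.exists_eq_pow_rootMultiplicity_mul_and_not_dvd P hP (a l)
  obtain ⟨Q1, hQ1, hQ1n⟩ := Polynomial.exists_eq_pow_rootMultiplicity_mul_and_not_dvd Q hQ (a l)
  set p := P.rootMultiplicity (a l) with hp
  set q := Q.rootMultiplicity (a l) with hq
  have hP1a : P1.eval (a l) ≠ 0 := fun h0 => hP1n (Polynomial.dvd_iff_isRoot.2 h0)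
  have hQ1a : Q1.eval (a l) ≠ 0 := fun h0 => hQ1n (Polynomial.dvd_iff_isRoot.2 h0)
  set Y : k[X] := X - C (a l) with hY
  have hYne : Y ≠ 0 := X_sub_C_ne_zero _
  have hdY : derivative Y = 1 := by rw [hY]; simp
  have hder : ∀ n : ℕ, Y * derivative (Y ^ n) = C (n : k) * Y ^ n := by
    intro n
    rw [derivative_pow, hdY, mul_one]
    cases n with
    | zero => simp
    | succ n =>
      rw [Nat.add_sub_cancel, pow_succ]
      ring
  have hkey : Y * (derivative P * Q - P * derivative Q) =
      Y ^ (p + q) * (C ((p : k) - q) * (P1 * Q1) + Y * (derivative P1 * Q1 - P1 * derivative Q1)) := by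
    rw [hP1, hQ1, derivative_mul, derivative_mul, C_sub]
    have e1 := hder p
    have e2 := hder q
    rw [pow_add]
    linear_combination P1 * Q1 * Y ^ q * e1 - P1 * Q1 * Y ^ p * e2
  have hmain2 : Y ^ (p + q) * (C ((p : k) - q) * (P1 * Q1) + Y * (derivative P1 * Q1 - P1 * derivative Q1)) * G1 =
      Y ^ (2 * q) * (Q1 ^ 2 * S) := by
    rw [← hkey]
    rw [hprod] at h
    have h3 : Q ^ 2 = Y ^ (2 * q) * Q1 ^ 2 := by
      rw [hQ1]
      ring
    rw [← mul_assoc, ← h3, ← h]
    ring
  have hYa : Y.eval (a l) = 0 := by rw [hY]; simp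
  rcases lt_trichotomy p q with hlt | heq | hgt
  · exfalso
    have h4 : Y ^ (p + q) * ((C ((p : k) - q) * (P1 * Q1) + Y * (derivative P1 * Q1 - P1 * derivative Q1)) * G1) =
        Y ^ (p + q) * (Y ^ (q - p) * (Q1 ^ 2 * S)) := by
      rw [← mul_assoc, hmain2, ← mul_assoc (Y ^ (p + q)), ← pow_add]
      congr 2
      omega
    have h5 := mul_left_cancel₀ (pow_ne_zero _ hYne) h4
    have h6 := congrArg (eval (a l)) h5
    simp only [eval_mul, eval_add, eval_pow, eval_C, hYa] at h6
    rw [zero_pow (by omega), zero_mul, zero_mul, add_zero] at h6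
    have h7 : ((p : k) - q) ≠ 0 := by
      rw [sub_ne_zero]
      exact_mod_cast hlt.ne
    exact (mul_ne_zero (mul_ne_zero h7 (mul_ne_zero hP1a hQ1a)) hG0) h6
  · have h4 : Y ^ (2 * q) * ((C ((p : k) - q) * (P1 * Q1) + Y * (derivative P1 * Q1 - P1 * derivative Q1)) * G1) =
        Y ^ (2 * q) * (Q1 ^ 2 * S) := by
      rw [← hmain2, ← mul_assoc]
      congr 3
      omega
    have h5 := mul_left_cancel₀ (pow_ne_zero _ hYne) h4
    have h6 := congrArg (eval (a l)) h5
    simp only [eval_mul, eval_add, eval_pow, eval_C, hYa] at h6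
    rw [heq, sub_self, zero_mul, zero_mul, add_zero, zero_mul] at h6
    exact (mul_eq_zero.1 h6.symm).resolve_left (pow_ne_zero _ hQ1a)
  · have h4 : Y ^ (2 * q) * (Y ^ (p - q) * ((C ((p : k) - q) * (P1 * Q1) +
        Y * (derivative P1 * Q1 - P1 * derivative Q1)) * G1)) = Y ^ (2 * q) * (Q1 ^ 2 * S) := by
      rw [← hmain2, ← mul_assoc, ← mul_assoc, ← pow_add]
      congr 3
      omega
    have h5 := mul_left_cancel₀ (pow_ne_zero _ hYne) h4
    have h6 := congrArg (eval (a l)) h5
    simp only [eval_mul, eval_add, eval_pow, eval_C, hYa] at h6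
    rw [zero_pow (by omega), zero_mul] at h6
    exact (mul_eq_zero.1 h6.symm).resolve_left (pow_ne_zero _ hQ1a)

/-- the differentials of the hyperlogarithms satisfy the conditions -/
theorem good_log {κ : Type} [Fintype κ] [DecidableEq κ] (a : κ → ℂ) (ha : Function.Injective a) (t₀ : ℂ)
    (ht₀ : ∀ i, t₀ ≠ a i) : Good t₀ (fun i z => 1 / (z - a i)) where
  an i := by
    refine AnalyticAt.div analyticAt_const (analyticAt_id.sub analyticAt_const) ?_
    exact sub_ne_zero.2 (ht₀ i)
  alg i := by
    refine ⟨(MvPolynomial.X 0 - MvPolynomial.C (a i)) * MvPolynomial.X 1 - 1, ?_, ?_⟩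
    · intro h
      have := congrArg (MvPolynomial.eval ![0, 0]) h
      simp at this
    · have h1 : ∀ᶠ t in 𝓝 t₀, t ≠ a i := isOpen_ne.mem_nhds (ht₀ i)
      filter_upwards [h1] with t ht
      have h2 : t - a i ≠ 0 := sub_ne_zero.2 ht
      simp only [map_sub, map_mul, MvPolynomial.eval_X, MvPolynomial.eval_C, map_one, Matrix.cons_val_zero,
        Matrix.cons_val_one]
      field_simp
      ring
  prim c g hg hgd := by
    classical
    obtain ⟨E, _, _, D, T, hconst, hTc, hTadd, hTmul, hTder, hTinj, hTcongr⟩ := germC t₀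
    have : CharZero E := charZero_of_injective_algebraMap (algebraMap ℂ E).injective
    set τ : E := T (fun s => s) with hτ
    have hid : AnalyticAt ℂ (fun s : ℂ => s) t₀ := analyticAt_id
    have hT0 : T (fun _ => 0) = 0 := by rw [hTc, map_zero]
    have hT1 : T (fun _ => 1) = 1 := by rw [hTc, map_one]
    have hDτ : D τ = 1 := by
      rw [hτ, hTder _ (fun _ => 1) hid (Eventually.of_forall fun s => hasDerivAt_id s), hT1]
    have hpolyan : ∀ P : ℂ[X], AnalyticAt ℂ (fun s => P.eval s) t₀ := fun P =>
      AnalyticOnNhd.eval_polynomial P t₀ (mem_univ _)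
    have hpoly : ∀ P : ℂ[X], T (fun s => P.eval s) = aeval τ P := by
      intro P
      induction P using Polynomial.induction_on with
      | C x => simp only [eval_C, aeval_C]; exact hTc x
      | add P Q hP hQ =>
        simp only [eval_add, map_add]
        rw [hTadd _ _ (hpolyan P) (hpolyan Q), hP, hQ]
      | monomial n x ih =>
        have h1 : (fun s => (C x * X ^ (n + 1)).eval s) = fun s => (C x * X ^ n).eval s * s := by
          funext s
          rw [pow_succ, ← mul_assoc, eval_mul, eval_X]
        rw [h1, hTmul _ _ (hpolyan _) hid, ih, pow_succ, ← mul_assoc, map_mul _ _ X, aeval_X]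
    have hmv : ∀ (f : ℂ → ℂ), AnalyticAt ℂ f t₀ → ∀ P : MvPolynomial (Fin 2) ℂ,
        T (fun s => MvPolynomial.eval ![s, f s] P) = MvPolynomial.aeval ![τ, T f] P := by
      intro f hf P
      induction P using MvPolynomial.induction_on with
      | C x => simp only [MvPolynomial.eval_C, MvPolynomial.aeval_C]; exact hTc x
      | add P Q hP hQ =>
        simp only [map_add]
        rw [hTadd _ _ (an_eval hf P) (an_eval hf Q), hP, hQ]
      | mul_X P i ih =>
        simp only [map_mul, MvPolynomial.eval_X, MvPolynomial.aeval_X]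
        rw [hTmul _ _ (an_eval hf P) (by fin_cases i; exacts [hid, hf]), ih]
        congr 1
        fin_cases i <;> rfl
    have hτtr : Transcendental ℂ τ := by
      rw [transcendental_iff]
      intro P hP
      rw [← hpoly] at hP
      have h1 := hTinj _ (hpolyan P) hP
      exact Polynomial.eq_zero_of_infinite_isRoot P (infinite_of_mem_nhds t₀ h1)
    set L : IntermediateField ℂ E := IntermediateField.adjoin ℂ {τ} with hL
    have hτL : τ ∈ L := IntermediateField.mem_adjoin_simple_self ℂ τ
    have hLD : ∀ y ∈ L, D y ∈ L := Pool.Agent.W417.HP.der_mem D {τ} (by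
      rintro s rfl
      rw [hDτ]; exact one_mem _)
    have hgan : AnalyticAt ℂ g t₀ := an_of_deriv hgd
    have hgalg : IsAlgebraic L (T g) := by
      obtain ⟨P, hP0, hP⟩ := hg
      rw [hL, alg_iff hτtr]
      refine ⟨P, hP0, ?_⟩
      rw [← hmv g hgan, ← hT0]
      exact hTcongr _ _ hP
    -- the differentials
    have hne : ∀ i, τ - algebraMap ℂ E (a i) ≠ 0 := by
      intro i h0
      have h1 := transcendental_iff.1 hτtr (X - C (a i)) (by rw [map_sub, aeval_X, aeval_C]; exact h0)
      exact X_sub_C_ne_zero _ h1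
    have huan : ∀ i, AnalyticAt ℂ (fun z => 1 / (z - a i)) t₀ := fun i =>
      AnalyticAt.div analyticAt_const (analyticAt_id.sub analyticAt_const) (sub_ne_zero.2 (ht₀ i))
    have hTu : ∀ i, T (fun z => 1 / (z - a i)) = (τ - algebraMap ℂ E (a i))⁻¹ := by
      intro i
      have h1 : T (fun z => 1 / (z - a i)) * (τ - algebraMap ℂ E (a i)) = 1 := by
        have h2 : τ - algebraMap ℂ E (a i) = T (fun s => (X - C (a i)).eval s) := by
          rw [hpoly, map_sub, aeval_X, aeval_C]
        rw [h2, ← hTmul _ _ (huan i) (hpolyan _), ← hT1]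
        apply hTcongr
        have h3 : ∀ᶠ t in 𝓝 t₀, t ≠ a i := isOpen_ne.mem_nhds (ht₀ i)
        filter_upwards [h3] with t ht
        have h4 : t - a i ≠ 0 := sub_ne_zero.2 ht
        rw [eval_sub, eval_X, eval_C]
        field_simp
      exact eq_inv_of_mul_eq_one_left h1
    have hTsum : ∀ {ι : Type} (s : Finset ι) (f : ι → ℂ → ℂ), (∀ i, AnalyticAt ℂ (f i) t₀) →
        T (fun t => ∑ i ∈ s, f i t) = ∑ i ∈ s, T (f i) := by
      intro ι s f hf
      classical
      induction s using Finset.induction_on with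
      | empty => simp only [Finset.sum_empty]; exact hT0
      | insert i s hi ih =>
        simp only [Finset.sum_insert hi]
        rw [hTadd _ _ (hf i) (Finset.analyticAt_fun_sum _ fun i _ => hf i), ih]
    have hDg : D (T g) = ∑ i, algebraMap ℂ E (c i) * (τ - algebraMap ℂ E (a i))⁻¹ := by
      rw [hTder _ _ hgan hgd, hTsum Finset.univ (fun i t => c i * (1 / (t - a i)))
        fun i => analyticAt_const.mul (huan i)]
      refine Finset.sum_congr rfl fun i _ => ?_
      rw [hTmul (fun _ => c i) _ analyticAt_const (huan i), hTc, hTu]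
    have hDgL : D (T g) ∈ L := by
      rw [hDg]
      exact sum_mem fun i _ => mul_mem (L.algebraMap_mem _) (inv_mem (sub_mem hτL (L.algebraMap_mem _)))
    obtain ⟨r, hrL, hr⟩ := exists_der D L hLD hgalg hDgL
    obtain ⟨P, Q, hPQ⟩ := (IntermediateField.mem_adjoin_simple_iff ℂ r).1 hrL
    have hinj : ∀ P : ℂ[X], aeval τ P = 0 → P = 0 := transcendental_iff.1 hτtr
    have hDpoly : ∀ P : ℂ[X], D (aeval τ P) = aeval τ (derivative P) := by
      intro P
      have h1 := Derivation.comp_aeval_eq (R := ℂ) (A := E) τ D P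
      rw [h1, hDτ, smul_eq_mul, mul_one]
    by_cases hQ : Q = 0
    · -- then `r = 0`
      have hr0 : D (T g) = 0 := by rw [← hr, hPQ, hQ, map_zero, div_zero, map_zero]
      have h3 : (0 : ℂ[X]) = ∑ i, C (c i) * ∏ j ∈ Finset.univ.erase i, (X - C (a j)) := by
        symm
        apply hinj
        have h4 : aeval τ (∑ i, C (c i) * ∏ j ∈ Finset.univ.erase i, (X - C (a j))) =
            (∏ i, (τ - algebraMap ℂ E (a i))) * ∑ i, algebraMap ℂ E (c i) * (τ - algebraMap ℂ E (a i))⁻¹ := by
          rw [map_sum, Finset.mul_sum]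
          refine Finset.sum_congr rfl fun i _ => ?_
          rw [← Finset.mul_prod_erase Finset.univ _ (Finset.mem_univ i), map_mul, aeval_C, map_prod]
          simp only [map_sub, aeval_X, aeval_C]
          have := hne i
          field_simp
        rw [h4, ← hDg, hr0, mul_zero]
      funext i
      exact rat_prim a ha c 0 1 one_ne_zero (by rw [← h3]; simp) i
    · have hQτ : aeval τ Q ≠ 0 := fun h0 => hQ (hinj Q h0)
      have hDr : D r * (aeval τ Q) ^ 2 = aeval τ (derivative P * Q - P * derivative Q) := by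
        have h5 : r * aeval τ Q = aeval τ P := by rw [hPQ, div_mul_cancel₀ _ hQτ]
        have h6 := congrArg D h5
        rw [Derivation.leibniz, hDpoly, hDpoly, smul_eq_mul, smul_eq_mul] at h6
        rw [map_sub, map_mul, map_mul]
        have h7 : aeval τ Q * D r = aeval τ (derivative P) - r * aeval τ (derivative Q) := by
          rw [← h6]; ring
        calc D r * (aeval τ Q) ^ 2 = (aeval τ Q * D r) * aeval τ Q := by ring
          _ = aeval τ (derivative P) * aeval τ Q - (r * aeval τ Q) * aeval τ (derivative Q) := by rw [h7]; ring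
          _ = _ := by rw [h5]
      funext l
      refine rat_prim a ha c P Q hQ ?_ l
      apply (injective_iff_map_eq_zero' (aeval τ : ℂ[X] →ₐ[ℂ] E)).2 (fun R => ⟨hinj R, fun h => by rw [h, map_zero]⟩) |>.eq_iff.1
      rw [map_mul, ← hDr, hr, hDg, map_mul, map_pow]
      have h4 : aeval τ (∑ i, C (c i) * ∏ j ∈ Finset.univ.erase i, (X - C (a j))) =
          (∏ i, (τ - algebraMap ℂ E (a i))) * ∑ i, algebraMap ℂ E (c i) * (τ - algebraMap ℂ E (a i))⁻¹ := by
        rw [map_sum, Finset.mul_sum]
        refine Finset.sum_congr rfl fun i _ => ?_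
        rw [← Finset.mul_prod_erase Finset.univ _ (Finset.mem_univ i), map_mul, aeval_C, map_prod]
        simp only [map_sub, aeval_X, aeval_C]
        have := hne i
        field_simp
      rw [h4, map_prod]
      simp only [map_sub, aeval_X, aeval_C]
      ring

end Pool.Agent.Y900.HY
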