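import Pool.Agent.Y119.UP.Alg
import Pool.Agent.W924.LF.Germ
import Pool.Agent.W417.HP.Der

/-!
# Iterated primitives of algebraic functions of a complex variable are linearly independent over algebraic functions
-/

set_option autoImplicit false

open Filter Set Polynomial
open scoped Topology

namespace Pool.Agent.Y900.HY

open Pool.Agent.Y119.UP (wd mem_wd)

/-- germs at `t₀` -/
theorem germC (t₀ : ℂ) : ∃ (E : Type) (_ : Field E) (_ : Algebra ℂ E) (D : Derivation ℂ E E)
    (T : (ℂ → ℂ) → E),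
    (∀ x : E, D x = 0 → ∃ c : ℂ, algebraMap ℂ E c = x) ∧
    (∀ c : ℂ, T (fun _ => c) = algebraMap ℂ E c) ∧
    (∀ f g : ℂ → ℂ, AnalyticAt ℂ f t₀ → AnalyticAt ℂ g t₀ → T (fun s => f s + g s) = T f + T g) ∧
    (∀ f g : ℂ → ℂ, AnalyticAt ℂ f t₀ → AnalyticAt ℂ g t₀ → T (fun s => f s * g s) = T f * T g) ∧
    (∀ f g : ℂ → ℂ, AnalyticAt ℂ f t₀ → (∀ᶠ s in 𝓝 t₀, HasDerivAt f (g s) s) →
      D (T f) = T g) ∧
    (∀ f : ℂ → ℂ, AnalyticAt ℂ f t₀ → T f = 0 → ∀ᶠ s in 𝓝 t₀, f s = 0) ∧
    (∀ f g : ℂ → ℂ, (∀ᶠ s in 𝓝 t₀, f s = g s) → T f = T g) := by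
  obtain ⟨E, i1, i2, D, T, hconst, hTc, hTadd, hTmul, hTder, hTinj, hTcongr⟩ :=
    Pool.Agent.W924.LF.t_GERM ℂ
  have hsh : ∀ g : ℂ → ℂ, AnalyticAt ℂ g t₀ → AnalyticAt ℂ (fun s => g (t₀ + s)) 0 := by
    intro g hg
    have h1 : AnalyticAt ℂ (fun s : ℂ => t₀ + s) 0 := analyticAt_const.add analyticAt_id
    have h2 : AnalyticAt ℂ g (t₀ + 0) := by rwa [add_zero]
    exact AnalyticAt.comp (g := g) (f := fun s : ℂ => t₀ + s) h2 h1
  have hmap : Tendsto (fun s : ℂ => t₀ + s) (𝓝 0) (𝓝 t₀) := by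
    have h1 : Continuous fun s : ℂ => t₀ + s := by fun_prop
    have := h1.tendsto 0
    rwa [add_zero] at this
  have hmap' : Tendsto (fun t : ℂ => t - t₀) (𝓝 t₀) (𝓝 0) := by
    have h1 : Continuous fun s : ℂ => s - t₀ := by fun_prop
    have := h1.tendsto t₀
    rwa [sub_self] at this
  refine ⟨E, i1, i2, D, fun f => T (fun s => f (t₀ + s)), hconst, hTc, fun f g hf hg =>
    hTadd _ _ (hsh f hf) (hsh g hg), fun f g hf hg => hTmul _ _ (hsh f hf) (hsh g hg), ?_, ?_, ?_⟩
  · intro f g hf hfg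
    show D (T (fun s => f (t₀ + s))) = T (fun s => g (t₀ + s))
    rw [← hTder _ (hsh f hf)]
    apply hTcongr
    filter_upwards [hmap.eventually hfg] with s hs
    exact (hs.comp_const_add t₀ s).deriv
  · intro f hf h0
    filter_upwards [hmap'.eventually (hTinj _ (hsh f hf) h0)] with t ht
    simpa using ht
  · intro f g hfg
    apply hTcongr
    exact hmap.eventually hfg

/-- two elements, the first one transcendental -/
theorem alg_iff {R E : Type} [Field R] [Field E] [Algebra R E] {τ x : E} (hτ : Transcendental R τ) :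
    IsAlgebraic (IntermediateField.adjoin R {τ}) x ↔
      ∃ P : MvPolynomial (Fin 2) R, P ≠ 0 ∧ MvPolynomial.aeval ![τ, x] P = 0 := by
  classical
  have h1 : AlgebraicIndependent R ![τ, x] ↔
      Transcendental (IntermediateField.adjoin R {τ}) x := by
    have hne : (1 : Fin 2) ∉ ({0} : Set (Fin 2)) := by simp
    have h2 := AlgebraicIndepOn.insert_iff (R := R) (x := ![τ, x]) hne
    have huniv : insert (1 : Fin 2) ({0} : Set (Fin 2)) = Set.univ := by
      ext i
      fin_cases i <;> simp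
    rw [huniv] at h2
    have h3 : AlgebraicIndepOn R ![τ, x] Set.univ ↔ AlgebraicIndependent R ![τ, x] :=
      algebraicIndependent_equiv' (Equiv.Set.univ (Fin 2)) rfl
    have h4 : AlgebraicIndepOn R ![τ, x] {0} := by
      have h5 : (![τ, x] : Fin 2 → E) 0 = τ := rfl
      rw [AlgebraicIndepOn, algebraicIndependent_unique_type_iff]
      exact hτ
    rw [← h3, h2, IntermediateField.transcendental_adjoin_iff]
    have h6 : (![τ, x] : Fin 2 → E) '' {0} = {τ} := by simp
    have h7 : (![τ, x] : Fin 2 → E) 1 = x := rfl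
    rw [h6, h7]
    exact ⟨fun h => h.2, fun h => ⟨h4, h⟩⟩
  have h8 : IsAlgebraic (IntermediateField.adjoin R {τ}) x ↔ ¬ AlgebraicIndependent R ![τ, x] := by
    rw [h1, Transcendental, not_not]
  rw [h8, algebraicIndependent_iff]
  push Not
  exact ⟨fun ⟨P, h, h'⟩ => ⟨P, h', h⟩, fun ⟨P, h, h'⟩ => ⟨P, h', h⟩⟩

/-- the function `g` is algebraic near `t₀` -/
def AlgAt (t₀ : ℂ) (g : ℂ → ℂ) : Prop :=
  ∃ P : MvPolynomial (Fin 2) ℂ, P ≠ 0 ∧ ∀ᶠ t in 𝓝 t₀, MvPolynomial.eval ![t, g t] P = 0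

theorem an_eval {u : ℂ → ℂ} {t : ℂ} (hu : AnalyticAt ℂ u t) (P : MvPolynomial (Fin 2) ℂ) :
    AnalyticAt ℂ (fun s => MvPolynomial.eval ![s, u s] P) t := by
  induction P using MvPolynomial.induction_on with
  | C a => simp only [MvPolynomial.eval_C]; exact analyticAt_const
  | add p q hp hq => simp only [map_add]; exact hp.add hq
  | mul_X p i hp =>
    simp only [map_mul, MvPolynomial.eval_X]
    refine hp.mul ?_
    fin_cases i
    · exact analyticAt_id
    · exact hu

theorem an_of_deriv {t₀ : ℂ} {f g : ℂ → ℂ} (h : ∀ᶠ t in 𝓝 t₀, HasDerivAt f (g t) t) : AnalyticAt ℂ f t₀ :=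
  Complex.analyticAt_iff_eventually_differentiableAt.2 (h.mono fun _ ht => ht.differentiableAt)

variable {κ : Type} [Fintype κ] [DecidableEq κ]

theorem lin_ind (t₀ : ℂ) {u : κ → ℂ → ℂ} (hu : ∀ i, AnalyticAt ℂ (u i) t₀) (hua : ∀ i, AlgAt t₀ (u i))
    (hprim : ∀ (c : κ → ℂ) (g : ℂ → ℂ), AlgAt t₀ g → (∀ᶠ t in 𝓝 t₀, HasDerivAt g (∑ i, c i * u i t) t) → c = 0)
    {I : List κ → ℂ → ℂ} (hI0 : ∀ᶠ t in 𝓝 t₀, I [] t = 1)
    (hI : ∀ i w, ∀ᶠ t in 𝓝 t₀, HasDerivAt (I (i :: w)) (u i t * I w t) t) (W : ℕ)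
    (p : List κ → ℂ[X]) (hp : ∀ᶠ t in 𝓝 t₀, ∑ w ∈ wd κ W, (p w).eval t * I w t = 0) :
    ∀ w ∈ wd κ W, p w = 0 := by
  classical
  obtain ⟨E, _, _, D, T, hconst, hTc, hTadd, hTmul, hTder, hTinj, hTcongr⟩ := germC t₀
  have : CharZero E := charZero_of_injective_algebraMap (algebraMap ℂ E).injective
  set τ : E := T (fun s => s) with hτ
  have hid : AnalyticAt ℂ (fun s : ℂ => s) t₀ := analyticAt_id
  have hT0 : T (fun _ => 0) = 0 := by rw [hTc, map_zero]
  have hT1 : T (fun _ => 1) = 1 := by rw [hTc, map_one]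
  have hDτ : D τ = 1 := by
    rw [hτ, hTder _ (fun _ => 1) hid (Eventually.of_forall fun s => hasDerivAt_id s), hT1]
  have hpolyan : ∀ P : ℂ[X], AnalyticAt ℂ (fun s => P.eval s) t₀ := fun P =>
    AnalyticOnNhd.eval_polynomial P t₀ (mem_univ _)
  have hpoly : ∀ P : ℂ[X], T (fun s => P.eval s) = aeval τ P := by
    intro P
    induction P using Polynomial.induction_on with
    | C x => simp only [eval_C, aeval_C]; exact hTc x
    | add P Q hP hQ =>
      simp only [eval_add, map_add]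
      rw [hTadd _ _ (hpolyan P) (hpolyan Q), hP, hQ]
    | monomial n x ih =>
      have h1 : (fun s => (C x * X ^ (n + 1)).eval s) = fun s => (C x * X ^ n).eval s * s := by
        funext s
        rw [pow_succ, ← mul_assoc, eval_mul, eval_X]
      rw [h1, hTmul _ _ (hpolyan _) hid, ih, pow_succ, ← mul_assoc, map_mul _ _ X, aeval_X]
  have hmv : ∀ (f : ℂ → ℂ), AnalyticAt ℂ f t₀ → ∀ P : MvPolynomial (Fin 2) ℂ,
      T (fun s => MvPolynomial.eval ![s, f s] P) = MvPolynomial.aeval ![τ, T f] P := by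
    intro f hf P
    induction P using MvPolynomial.induction_on with
    | C x => simp only [MvPolynomial.eval_C, MvPolynomial.aeval_C]; exact hTc x
    | add P Q hP hQ =>
      simp only [map_add]
      rw [hTadd _ _ (an_eval hf P) (an_eval hf Q), hP, hQ]
    | mul_X P i ih =>
      simp only [map_mul, MvPolynomial.eval_X, MvPolynomial.aeval_X]
      rw [hTmul _ _ (an_eval hf P) (by fin_cases i; exacts [hid, hf]), ih]
      congr 1
      fin_cases i <;> rfl
  have hτtr : Transcendental ℂ τ := by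
    rw [transcendental_iff]
    intro P hP
    rw [← hpoly] at hP
    have h1 := hTinj _ (hpolyan P) hP
    exact Polynomial.eq_zero_of_infinite_isRoot P (infinite_of_mem_nhds t₀ h1)
  -- the field
  set L : IntermediateField ℂ E := IntermediateField.adjoin ℂ {τ} with hL
  set K : Subfield E := (algebraicClosure L E).toSubfield with hK
  have hmemK : ∀ x, x ∈ K ↔ IsAlgebraic L x := fun x => mem_algebraicClosure_iff
  have hLD : ∀ y ∈ L, D y ∈ L := Pool.Agent.W417.HP.der_mem D {τ} (by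
    rintro s rfl
    rw [hDτ]; exact one_mem _)
  have hDK : ∀ x ∈ K, D x ∈ K := fun x hx =>
    (hmemK _).2 (Pool.Agent.W417.HP.der_alg D L hLD ((hmemK _).1 hx))
  have hLK : ∀ y ∈ L, y ∈ K := fun y hy =>
    (hmemK _).2 (isAlgebraic_algebraMap (⟨y, hy⟩ : L))
  have hcK : ∀ c : ℂ, algebraMap ℂ E c ∈ K := fun c => hLK _ (L.algebraMap_mem c)
  have hτK : τ ∈ K := hLK _ (IntermediateField.mem_adjoin_simple_self ℂ τ)
  have hpK : ∀ P : ℂ[X], aeval τ P ∈ K := by
    intro P
    rw [aeval_eq_sum_range]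
    refine sum_mem fun i _ => ?_
    rw [Algebra.smul_def]
    exact mul_mem (hcK _) (pow_mem hτK _)
  have halgK : ∀ f : ℂ → ℂ, AnalyticAt ℂ f t₀ → AlgAt t₀ f → T f ∈ K := by
    rintro f hf ⟨P, hP0, hP⟩
    rw [hmemK, hL, alg_iff hτtr]
    refine ⟨P, hP0, ?_⟩
    rw [← hmv f hf, ← hT0]
    exact hTcongr _ _ hP
  have halgOn : ∀ f : ℂ → ℂ, AnalyticAt ℂ f t₀ → T f ∈ K → AlgAt t₀ f := by
    intro f hf hfK
    rw [hmemK, hL, alg_iff hτtr] at hfK
    obtain ⟨P, hP0, hP⟩ := hfK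
    refine ⟨P, hP0, ?_⟩
    rw [← hmv f hf] at hP
    exact hTinj _ (an_eval hf P) hP
  -- sums
  have hTsum : ∀ {ι : Type} (s : Finset ι) (f : ι → ℂ → ℂ), (∀ i, AnalyticAt ℂ (f i) t₀) →
      T (fun t => ∑ i ∈ s, f i t) = ∑ i ∈ s, T (f i) := by
    intro ι s f hf
    classical
    induction s using Finset.induction_on with
    | empty => simp only [Finset.sum_empty]; exact hT0
    | insert i s hi ih =>
      simp only [Finset.sum_insert hi]
      rw [hTadd _ _ (hf i) (Finset.analyticAt_fun_sum _ fun i _ => hf i), ih]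
  have hIan : ∀ w, AnalyticAt ℂ (I w) t₀ := by
    intro w
    cases w with
    | nil => exact (analyticAt_const (v := (1 : ℂ))).congr (hI0.mono fun s hs => hs.symm)
    | cons i w => exact an_of_deriv (hI i w)
  -- primitives
  have hUfd : ∀ i, ∀ᶠ t in 𝓝 t₀, HasDerivAt (I [i]) (u i t) t := by
    intro i
    filter_upwards [hI i [], hI0] with t h1 h2
    rwa [h2, mul_one] at h1
  have hDU : ∀ i, D (T (I [i])) = T (u i) := fun i => hTder _ _ (hIan _) (hUfd i)
  have hY : ∀ i w, D (T (I (i :: w))) = T (u i) * T (I w) := by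
    intro i w
    rw [← hTmul _ _ (hu i) (hIan w)]
    exact hTder _ _ (hIan _) (hI i w)
  have hY0 : T (I []) = 1 := by
    rw [← hT1]
    exact hTcongr _ _ hI0
  have hprimE : ∀ (c : κ → E) (g : E), (∀ i, c i ∈ K) → (∀ i, D (c i) = 0) → g ∈ K →
      D g = ∑ i, c i * T (u i) → ∀ i, c i = 0 := by
    intro c g _ hc hg hDg
    choose c' hc' using fun i => hconst (c i) (hc i)
    have h1 : D (g - ∑ i, c i * T (I [i])) = 0 := by
      rw [map_sub, hDg, map_sum, sub_eq_zero]
      refine Finset.sum_congr rfl fun i _ => ?_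
      rw [Derivation.leibniz, hc i, smul_zero, add_zero, hDU, smul_eq_mul]
    obtain ⟨e, he⟩ := hconst _ h1
    set G : ℂ → ℂ := fun t => ∑ i, c' i * I [i] t with hG
    have hGan : AnalyticAt ℂ G t₀ :=
      Finset.analyticAt_fun_sum _ fun i _ => analyticAt_const.mul (hIan _)
    have hTG : T G = g - algebraMap ℂ E e := by
      have h2 : T G = ∑ i, c i * T (I [i]) := by
        rw [hG, hTsum Finset.univ (fun i t => c' i * I [i] t)
          fun i => analyticAt_const.mul (hIan _)]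
        refine Finset.sum_congr rfl fun i _ => ?_
        rw [hTmul _ _ analyticAt_const (hIan _), hTc, hc']
      rw [h2, he]; ring
    have h3 := hprim c' G (halgOn G hGan (by rw [hTG]; exact sub_mem hg (hcK e))) (by
      have h5 : ∀ᶠ t in 𝓝 t₀, ∀ i, HasDerivAt (I [i]) (u i t) t := eventually_all.2 hUfd
      filter_upwards [h5] with t ht
      have h4 := HasDerivAt.fun_sum (u := Finset.univ) (A := fun i t => c' i * I [i] t)
        (A' := fun i => c' i * u i t) (x := t) fun i _ => (ht i).const_mul (c' i)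
      exact h4)
    intro i
    rw [← hc' i, h3]
    simp
  -- the relation
  have hrel : ∑ w ∈ wd κ W, aeval τ (p w) * T (I w) = 0 := by
    have h1 : T (fun t => ∑ w ∈ wd κ W, (p w).eval t * I w t) = 0 := by
      rw [← hT0]
      exact hTcongr _ _ hp
    rw [hTsum _ (fun w t => (p w).eval t * I w t) fun w => (hpolyan (p w)).mul (hIan w)] at h1
    rw [← h1]
    refine Finset.sum_congr rfl fun w _ => ?_
    rw [hTmul (fun t => (p w).eval t) (I w) (hpolyan _) (hIan w), hpoly]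
  have hg0 := Pool.Agent.Y119.UP.indep D K hDK (fun i => T (u i)) (fun i => halgK _ (hu i) (hua i)) hprimE
    (fun w => T (I w)) hY0 hY W (fun w => aeval τ (p w)) (fun w => hpK _) hrel
  intro w hw
  exact (transcendental_iff.1 hτtr) _ (hg0 w hw)

end Pool.Agent.Y900.HY
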