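import Pool.Agent.Y124.NFR

/-!
# Linear relations between families which are polynomials in independent functions
-/

set_option autoImplicit false

open Finset NumberField

namespace Pool.Agent.Y900.HY

open Pool.Agent.Y124 Pool.Agent.Y120

theorem prod_sum_pi {n : ℕ} {β : Type} [Fintype β] [DecidableEq β] {R : Type*} [CommSemiring R] (g : Fin n → β → R) :
    ∏ j, ∑ r, g j r = ∑ r : Fin n → β, ∏ j, g j (r j) := by
  rw [Finset.prod_univ_sum, Fintype.piFinset_univ]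

/-- a matrix without kernel has a left inverse -/
theorem exists_left_inv {Ω X : Type} [Fintype Ω] [DecidableEq Ω] [Fintype X] [DecidableEq X] (Bm : Ω → X → ℂ)
    (hinj : ∀ a : Ω → ℂ, (∀ x, ∑ w, a w * Bm w x = 0) → a = 0) :
    ∃ G : X → Ω → ℂ, ∀ w w', ∑ x, Bm w x * G x w' = if w = w' then 1 else 0 := by
  let f : (Ω → ℂ) →ₗ[ℂ] (X → ℂ) :=
    { toFun := fun a x => ∑ w, a w * Bm w x
      map_add' := fun a b => by
        funext x
        simp only [Pi.add_apply, add_mul, Finset.sum_add_distrib]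
      map_smul' := fun c a => by
        funext x
        simp only [Pi.smul_apply, smul_eq_mul, RingHom.id_apply, Finset.mul_sum, mul_assoc] }
  have hf : LinearMap.ker f = ⊥ := by
    rw [LinearMap.ker_eq_bot']
    intro a ha
    exact hinj a fun x => congrFun ha x
  obtain ⟨g, hg⟩ := LinearMap.exists_leftInverse_of_injective f hf
  refine ⟨fun x w' => g (Pi.single x 1) w', fun w w' => ?_⟩
  have h1 : g (f (Pi.single w 1)) w' = if w = w' then 1 else 0 := by
    have h2 := LinearMap.congr_fun hg (Pi.single w 1)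
    rw [LinearMap.comp_apply, LinearMap.id_apply] at h2
    rw [h2, Pi.single_apply]
    congr 1
    exact propext eq_comm
  have h3 : f (Pi.single w 1) = ∑ x, Bm w x • (Pi.single x (1 : ℂ) : X → ℂ) := by
    funext x
    show ∑ v, (Pi.single w (1 : ℂ) : Ω → ℂ) v * Bm v x = _
    rw [Finset.sum_eq_single w, Pi.single_eq_same, one_mul, Finset.sum_apply, Finset.sum_eq_single x]
    · simp
    · intro b _ hb
      rw [Pi.smul_apply, Pi.single_eq_of_ne hb.symm, smul_zero]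
    · intro h
      exact absurd (Finset.mem_univ _) h
    · intro b _ hb
      rw [Pi.single_eq_of_ne hb, zero_mul]
    · intro h
      exact absurd (Finset.mem_univ _) h
  rw [← h1, h3, map_sum, Finset.sum_apply]
  refine Finset.sum_congr rfl fun x _ => ?_
  rw [map_smul, Pi.smul_apply, smul_eq_mul]

theorem lin_engine {κ Ω ρ h : Type} [Fintype κ] [DecidableEq κ] [Fintype Ω] [DecidableEq Ω] [Fintype ρ] [DecidableEq ρ]
    [Fintype h] [DecidableEq h] (m n W : ℕ) (v : ℂ → κ → ℂ) (L : Set ℂ)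
    (hv : ∀ g, OneV g (fun R T => {t | t ∈ L ∧ Pt R T t}) v) (I : Ω → ℂ → ℂ) (kap : ρ → ℂ)
    (b : Ω → ρ → (κ → Fin (W + 1)) → ℤ) (N : ℕ) (hN : 0 < N)
    (hI : ∀ w, ∀ t ∈ L, (N : ℂ) * I w t = ∑ x : κ → Fin (W + 1), (∑ r, kap r * (b w r x : ℂ)) * ∏ i, v t i ^ (x i : ℕ))
    (hinj : ∀ a : Ω → ℂ, (∀ x, ∑ w, a w * ∑ r, kap r * (b w r x : ℂ) = 0) → a = 0) (A ε : ℝ) (hε : 0 < ε) :
    ∃ B C T₀ : ℝ, 0 ≤ C ∧ 2 ≤ T₀ ∧ ∀ (K : Type) [Field K] [NumberField K], Module.finrank ℚ K ≤ m → ∀ (io : K →+* ℂ)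
      (ξ : h → ℂ) (T : ℝ), T₀ ≤ T → ∀ E : Set (Fin n → K),
      (∀ t ∈ E, (∀ j, HtLe K T (t j) ∧ io (t j) ∈ L) ∧
        RelK K io ξ (fun w : Fin n → Ω => ∏ j, I (w j) (io (t j))) (T ^ A) (T ^ (-B))) →
      E.Finite ∧ (E.ncard : ℝ) ≤ C * T ^ ε * (({x : K | HtLe K T x ∧ io x ∈ L}.ncard : ℝ)) ^ (n - 1) := by
  classical
  let Bm : Ω → (κ → Fin (W + 1)) → ℂ := fun w x => ∑ r, kap r * (b w r x : ℂ)
  obtain ⟨G, hG⟩ := exists_left_inv Bm hinj
  obtain ⟨B, C, T₀, hC, hT₀, H⟩ := nfU m n v L hv (h × (Fin n → ρ)) W (A + 1) ε hε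
  -- constants
  set Γ : ℝ := ∑ w : Fin n → Ω, ∑ x : Fin n → κ → Fin (W + 1), ∏ j, ‖G (x j) (w j)‖ with hΓ
  set Δ : ℝ := ∑ x : Fin n → κ → Fin (W + 1), ∑ r : Fin n → ρ, ∑ w : Fin n → Ω, ∏ j, |(b (w j) (r j) (x j) : ℝ)| with hΔ
  have hΓ0 : 0 ≤ Γ := Finset.sum_nonneg fun _ _ => Finset.sum_nonneg fun _ _ => Finset.prod_nonneg fun _ _ => norm_nonneg _
  have hΔ0 : 0 ≤ Δ := Finset.sum_nonneg fun _ _ => Finset.sum_nonneg fun _ _ => Finset.sum_nonneg fun _ _ =>
    Finset.prod_nonneg fun _ _ => abs_nonneg _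
  refine ⟨B + 1, C, max T₀ ((N : ℝ) ^ n * Γ + Δ + 1), hC, hT₀.trans (le_max_left _ _), ?_⟩
  intro K _ _ hm io ξ T hT E hE
  have hT1 : T₀ ≤ T := (le_max_left _ _).trans hT
  have hT2 : (N : ℝ) ^ n * Γ + Δ + 1 ≤ T := (le_max_right _ _).trans hT
  have hTp : 0 < T := by linarith
  refine H K hm io (fun q => ξ q.1 * ∏ j, kap (q.2 j)) T hT1 E fun t ht => ?_
  obtain ⟨h1, c, hcb, w₀, hw₀, hsm⟩ := hE t ht
  refine ⟨h1, ?_⟩
  -- the old and the new coefficients
  set a : (Fin n → Ω) → ℂ := fun w => ∑ s, ξ s * io (c w s : K) with ha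
  let c' : (Fin n → κ → Fin (W + 1)) → h × (Fin n → ρ) → 𝓞 K := fun x q =>
    ∑ w : Fin n → Ω, c w q.1 * ∏ j, ((b (w j) (q.2 j) (x j) : ℤ) : 𝓞 K)
  have hc'io : ∀ x q (φ : K →+* ℂ), φ (c' x q : K) = ∑ w : Fin n → Ω, φ (c w q.1 : K) *
      ∏ j, ((b (w j) (q.2 j) (x j) : ℤ) : ℂ) := by
    intro x q φ
    simp only [c', map_sum, map_mul, map_prod, map_intCast]
  have ha' : ∀ x : Fin n → κ → Fin (W + 1), ∑ q : h × (Fin n → ρ), (ξ q.1 * ∏ j, kap (q.2 j)) * io (c' x q : K) =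
      ∑ w : Fin n → Ω, a w * ∏ j, Bm (w j) (x j) := by
    intro x
    have e1 : ∀ q : h × (Fin n → ρ), (ξ q.1 * ∏ j, kap (q.2 j)) * io (c' x q : K) =
        ∑ w : Fin n → Ω, (ξ q.1 * io (c w q.1 : K)) * ∏ j, (kap (q.2 j) * (b (w j) (q.2 j) (x j) : ℂ)) := by
      intro q
      rw [hc'io, Finset.mul_sum]
      refine Finset.sum_congr rfl fun w _ => ?_
      rw [Finset.prod_mul_distrib]
      ring
    rw [Finset.sum_congr rfl fun q _ => e1 q, Finset.sum_comm]
    refine Finset.sum_congr rfl fun w _ => ?_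
    rw [Fintype.sum_prod_type]
    simp only [ha, Bm]
    rw [Finset.sum_mul]
    refine Finset.sum_congr rfl fun s _ => ?_
    rw [prod_sum_pi, Finset.mul_sum]
  set a' : (Fin n → κ → Fin (W + 1)) → ℂ := fun x => ∑ w : Fin n → Ω, a w * ∏ j, Bm (w j) (x j) with ha'def
  -- inversion
  have hinv : ∀ w' : Fin n → Ω, a w' = ∑ x : Fin n → κ → Fin (W + 1), a' x * ∏ j, G (x j) (w' j) := by
    intro w'
    have e1 : ∀ x : Fin n → κ → Fin (W + 1), a' x * ∏ j, G (x j) (w' j) =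
        ∑ w : Fin n → Ω, a w * ∏ j, (Bm (w j) (x j) * G (x j) (w' j)) := by
      intro x
      rw [ha'def]
      simp only
      rw [Finset.sum_mul]
      refine Finset.sum_congr rfl fun w _ => ?_
      rw [Finset.prod_mul_distrib]
      ring
    rw [Finset.sum_congr rfl fun x _ => e1 x, Finset.sum_comm]
    have e2 : ∀ w : Fin n → Ω, ∑ x : Fin n → κ → Fin (W + 1), a w * ∏ j, (Bm (w j) (x j) * G (x j) (w' j)) =
        if w = w' then a w else 0 := by
      intro w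
      rw [← Finset.mul_sum, ← prod_sum_pi (fun j x => Bm (w j) x * G x (w' j))]
      rw [Finset.prod_congr rfl fun j _ => hG (w j) (w' j)]
      by_cases hww : w = w'
      · subst hww
        simp
      · rw [if_neg hww]
        obtain ⟨j, hj⟩ := Function.ne_iff.1 hww
        rw [Finset.prod_eq_zero (Finset.mem_univ j) (if_neg hj), mul_zero]
    rw [Finset.sum_congr rfl fun w _ => e2 w]
    simp
  -- the greatest new coefficient
  have hne : (Finset.univ : Finset (Fin n → κ → Fin (W + 1))).Nonempty := ⟨fun _ _ => 0, Finset.mem_univ _⟩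
  obtain ⟨x₀, -, hx₀⟩ := Finset.exists_max_image Finset.univ (fun x => ‖a' x‖) hne
  have hle : ‖a w₀‖ ≤ Γ * ‖a' x₀‖ := by
    rw [hinv w₀]
    refine (norm_sum_le _ _).trans ?_
    calc ∑ x : Fin n → κ → Fin (W + 1), ‖a' x * ∏ j, G (x j) (w₀ j)‖ ≤ ∑ x : Fin n → κ → Fin (W + 1), ‖a' x₀‖ * ∏ j, ‖G (x j) (w₀ j)‖ := by
          refine Finset.sum_le_sum fun x _ => ?_
          rw [norm_mul, norm_prod]
          exact mul_le_mul_of_nonneg_right (hx₀ x (Finset.mem_univ _)) (Finset.prod_nonneg fun _ _ => norm_nonneg _)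
      _ = (∑ x : Fin n → κ → Fin (W + 1), ∏ j, ‖G (x j) (w₀ j)‖) * ‖a' x₀‖ := by
          rw [← Finset.mul_sum, mul_comm]
      _ ≤ Γ * ‖a' x₀‖ := by
          refine mul_le_mul_of_nonneg_right ?_ (norm_nonneg _)
          rw [hΓ]
          exact Finset.single_le_sum (f := fun w : Fin n → Ω => ∑ x : Fin n → κ → Fin (W + 1), ∏ j, ‖G (x j) (w j)‖)
            (fun w _ => Finset.sum_nonneg fun _ _ => Finset.prod_nonneg fun _ _ => norm_nonneg _) (Finset.mem_univ w₀)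
  have hx₀ne : a' x₀ ≠ 0 := by
    intro h0
    rw [h0, norm_zero, mul_zero] at hle
    exact hw₀ (norm_le_zero_iff.1 hle)
  -- the value
  have hval : ∑ x : Fin n → κ → Fin (W + 1), a' x * mgR (fun _ => v) (fun j => io (t j)) x =
      (N : ℂ) ^ n * ∑ w : Fin n → Ω, a w * ∏ j, I (w j) (io (t j)) := by
    have e1 : ∀ w : Fin n → Ω, (N : ℂ) ^ n * (a w * ∏ j, I (w j) (io (t j))) =
        ∑ x : Fin n → κ → Fin (W + 1), a w * ∏ j, (Bm (w j) (x j) * ∏ i, v (io (t j)) i ^ (x j i : ℕ)) := by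
      intro w
      rw [← Finset.mul_sum, ← prod_sum_pi (fun j (x : κ → Fin (W + 1)) => Bm (w j) x * ∏ i, v (io (t j)) i ^ (x i : ℕ))]
      rw [Finset.prod_congr rfl fun j _ => (hI (w j) (io (t j)) (h1 j).2).symm, Finset.prod_mul_distrib,
        Finset.prod_const, Finset.card_univ, Fintype.card_fin]
      ring
    rw [Finset.mul_sum, Finset.sum_congr rfl fun w _ => e1 w, Finset.sum_comm]
    refine Finset.sum_congr rfl fun x _ => ?_
    rw [ha'def]
    simp only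
    rw [Finset.sum_mul]
    refine Finset.sum_congr rfl fun w _ => ?_
    rw [mgR, Finset.prod_mul_distrib]
    ring
  refine ⟨c', ?_, x₀, ?_, ?_⟩
  · intro x q φ
    rw [hc'io]
    refine (norm_sum_le _ _).trans ?_
    have h5 : ∀ w : Fin n → Ω, ‖φ (c w q.1 : K) * ∏ j, ((b (w j) (q.2 j) (x j) : ℤ) : ℂ)‖ ≤
        T ^ A * ∏ j, |(b (w j) (q.2 j) (x j) : ℝ)| := by
      intro w
      rw [norm_mul, norm_prod]
      refine mul_le_mul (hcb w q.1 φ) (le_of_eq ?_) (Finset.prod_nonneg fun _ _ => norm_nonneg _)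
        (Real.rpow_nonneg hTp.le _)
      refine Finset.prod_congr rfl fun j _ => ?_
      rw [Complex.norm_intCast]
    calc ∑ w : Fin n → Ω, ‖φ (c w q.1 : K) * ∏ j, ((b (w j) (q.2 j) (x j) : ℤ) : ℂ)‖
        ≤ ∑ w : Fin n → Ω, T ^ A * ∏ j, |(b (w j) (q.2 j) (x j) : ℝ)| := Finset.sum_le_sum fun w _ => h5 w
      _ = T ^ A * ∑ w : Fin n → Ω, ∏ j, |(b (w j) (q.2 j) (x j) : ℝ)| := by rw [Finset.mul_sum]
      _ ≤ T ^ A * Δ := by
          refine mul_le_mul_of_nonneg_left ?_ (Real.rpow_nonneg hTp.le _)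
          rw [hΔ]
          have h6 := Finset.single_le_sum (f := fun x : Fin n → κ → Fin (W + 1) => ∑ r : Fin n → ρ, ∑ w : Fin n → Ω,
            ∏ j, |(b (w j) (r j) (x j) : ℝ)|) (fun x _ => Finset.sum_nonneg fun _ _ => Finset.sum_nonneg fun _ _ =>
            Finset.prod_nonneg fun _ _ => abs_nonneg _) (Finset.mem_univ x)
          have h7 := Finset.single_le_sum (f := fun r : Fin n → ρ => ∑ w : Fin n → Ω,
            ∏ j, |(b (w j) (r j) (x j) : ℝ)|) (fun r _ => Finset.sum_nonneg fun _ _ =>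
            Finset.prod_nonneg fun _ _ => abs_nonneg _) (Finset.mem_univ q.2)
          exact h7.trans h6
      _ ≤ T ^ A * T := by
          refine mul_le_mul_of_nonneg_left ?_ (Real.rpow_nonneg hTp.le _)
          have : 0 ≤ (N : ℝ) ^ n * Γ := by positivity
          linarith
      _ = T ^ (A + 1) := by rw [Real.rpow_add_one hTp.ne']
  · rw [ha']
    exact hx₀ne
  · have e5 : ∀ x : Fin n → κ → Fin (W + 1), (∑ q : h × (Fin n → ρ), (ξ q.1 * ∏ j, kap (q.2 j)) * io (c' x q : K)) *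
        mgR (fun _ => v) (fun j => io (t j)) x = a' x * mgR (fun _ => v) (fun j => io (t j)) x := fun x => by
      rw [ha']
    rw [Finset.sum_congr rfl fun x _ => e5 x, ha', hval, norm_mul]
    have hsm' : ‖∑ w : Fin n → Ω, a w * ∏ j, I (w j) (io (t j))‖ ≤ T ^ (-(B + 1)) * ‖a w₀‖ := hsm
    calc ‖(N : ℂ) ^ n‖ * ‖∑ w : Fin n → Ω, a w * ∏ j, I (w j) (io (t j))‖
        ≤ (N : ℝ) ^ n * (T ^ (-(B + 1)) * (Γ * ‖a' x₀‖)) := by
          rw [norm_pow, Complex.norm_natCast]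
          refine mul_le_mul_of_nonneg_left (hsm'.trans ?_) (by positivity)
          exact mul_le_mul_of_nonneg_left hle (Real.rpow_nonneg hTp.le _)
      _ = ((N : ℝ) ^ n * Γ) * (T ^ (-(B + 1)) * ‖a' x₀‖) := by ring
      _ ≤ T * (T ^ (-(B + 1)) * ‖a' x₀‖) := by
          refine mul_le_mul_of_nonneg_right ?_ (mul_nonneg (Real.rpow_nonneg hTp.le _) (norm_nonneg _))
          linarith
      _ = T ^ (-B) * ‖a' x₀‖ := by
          rw [← mul_assoc]
          congr 1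
          have : (-B : ℝ) = 1 + (-(B + 1)) := by ring
          rw [this, Real.rpow_add hTp, Real.rpow_one]

end Pool.Agent.Y900.HY
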