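import Pool.Agent.H569R3.HallMain

/-!
# A Hall set and the shuffle algebra as a polynomial algebra
-/

set_option autoImplicit false

namespace Pool.Agent.Y900.HY

open H569R3.Hall

variable {A : Type}

/-- the free magma with an auxiliary linear order -/
def WO (A : Type) : Type := FreeMagma A

noncomputable instance : LinearOrder (WO A) :=
  haveI : DecidableRel (WellOrderingRel (α := FreeMagma A)) := Classical.decRel _
  (linearOrderOfSTO (WellOrderingRel (α := FreeMagma A)) : LinearOrder (FreeMagma A))

/-- change of type -/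
def toWO (t : FreeMagma A) : WO A := t

/-- bigger trees are smaller -/
noncomputable instance ord : LinearOrder (FreeMagma A) :=
  LinearOrder.lift' (fun t : FreeMagma A => (toLex (OrderDual.toDual (fol t).length, toWO t) : ℕᵒᵈ ×ₗ WO A))
    (fun s t h => by
      have h1 := congrArg (fun x : ℕᵒᵈ ×ₗ WO A => (ofLex x).2) h
      exact h1)

theorem lt_of_length {s t : FreeMagma A} (h : (fol t).length < (fol s).length) : s < t := by
  show (toLex (OrderDual.toDual (fol s).length, toWO s) : ℕᵒᵈ ×ₗ WO A) <
    toLex (OrderDual.toDual (fol t).length, toWO t)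
  rw [Prod.Lex.toLex_lt_toLex]
  exact Or.inl h

/-- condition on the left factor -/
def okL : FreeMagma A → FreeMagma A → Prop
  | .of _, _ => True
  | .mul _ v, t => t ≤ v

/-- a Hall set -/
def isH : FreeMagma A → Prop
  | .of _ => True
  | .mul s t => isH s ∧ isH t ∧ s < t ∧ okL s t

theorem isH_mul (s t : FreeMagma A) : isH (s * t) ↔ isH s ∧ isH t ∧ s < t ∧ okL s t := Iff.rfl

theorem isHall : IsHall {t : FreeMagma A | isH t} where
  letter a := trivial
  right s t h := by
    have h1 := (isH_mul s t).1 h
    refine ⟨h1.2.1, lt_of_length ?_⟩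
    rw [fol_mul, List.length_append]
    have := fol_pos s
    omega
  iff s t := by
    constructor
    · intro h
      have h1 := (isH_mul s t).1 h
      refine ⟨h1.1, h1.2.1, h1.2.2.1, ?_⟩
      have h4 := h1.2.2.2
      clear h h1
      cases s with
      | of a => exact Or.inl ⟨a, rfl⟩
      | mul u v => exact Or.inr ⟨u, v, rfl, h4⟩
    · rintro ⟨h1, h2, h3, h4⟩
      refine (isH_mul s t).2 ⟨h1, h2, h3, ?_⟩
      rcases h4 with ⟨a, rfl⟩ | ⟨u, v, rfl, h5⟩
      · trivial
      · exact h5

/-- the shuffle of reversed words -/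
noncomputable def shr : List A → List A → V A
  | [], v => e v.reverse
  | a :: u, [] => e (a :: u).reverse
  | a :: u, b :: v => snoc a (shr u (b :: v)) + snoc b (shr (a :: u) v)
termination_by u v => u.length + v.length

theorem shr_nil (v : List A) : shr [] v = e v.reverse := by rw [shr]

theorem shr_nil' (u : List A) : shr u [] = e u.reverse := by
  cases u with
  | nil => rw [shr]
  | cons a u => rw [shr]

theorem shr_cons (a b : A) (u v : List A) :
    shr (a :: u) (b :: v) = snoc a (shr u (b :: v)) + snoc b (shr (a :: u) v) := by rw [shr]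

/-- linear extension -/
noncomputable def lext {M : Type} [AddCommGroup M] [Module ℚ M] (φ : List A → M) : V A →ₗ[ℚ] M :=
  (Finsupp.lift M ℚ (List A) φ : (List A →₀ ℚ) →ₗ[ℚ] M)

theorem lext_e {M : Type} [AddCommGroup M] [Module ℚ M] (φ : List A → M) (w : List A) : lext φ (e w) = φ w := by
  have h1 : lext φ (e w) = (Finsupp.lift M ℚ (List A) φ : (List A →₀ ℚ) →ₗ[ℚ] M) (Finsupp.single w 1) := rfl
  rw [h1, Finsupp.lift_apply, Finsupp.sum_single_index (by simp), one_smul]

/-- the shuffle product -/
noncomputable def SH : V A →ₗ[ℚ] V A →ₗ[ℚ] V A := lext fun u => lext fun v => shr u.reverse v.reverse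

theorem SH_e (u v : List A) : SH (e u) (e v) = shr u.reverse v.reverse := by
  rw [SH, lext_e, lext_e]

/-- the half shuffle -/
noncomputable def HS : V A →ₗ[ℚ] V A →ₗ[ℚ] V A :=
  LinearMap.flip (lext fun w => match w.reverse with
    | [] => 0
    | b :: v => (snoc b).comp (SH.flip (e v.reverse)))

theorem HS_nil (x : V A) : HS x (e []) = 0 := by
  rw [HS, LinearMap.flip_apply, lext_e]
  rfl

theorem HS_snoc (x : V A) (v : List A) (b : A) : HS x (e (v ++ [b])) = snoc b (SH x (e v)) := by
  rw [HS, LinearMap.flip_apply, lext_e]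
  simp only [List.reverse_append, List.reverse_cons, List.reverse_nil, List.nil_append, List.singleton_append,
    List.reverse_reverse, LinearMap.comp_apply, LinearMap.flip_apply]

/-- the shuffle data -/
noncomputable def DD : ShData A where
  sh := SH
  hs := HS
  one_sh x := by
    have h : (SH (e [] : V A)) = LinearMap.id := by
      refine V_lin_ext fun w => ?_
      rw [SH_e, List.reverse_nil, shr_nil, List.reverse_reverse, LinearMap.id_apply]
    rw [h, LinearMap.id_apply]
  sh_one x := by
    have h : (SH.flip (e [] : V A)) = LinearMap.id := by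
      refine V_lin_ext fun w => ?_
      rw [LinearMap.flip_apply, SH_e, List.reverse_nil, shr_nil', List.reverse_reverse, LinearMap.id_apply]
    have h1 := LinearMap.congr_fun h x
    rwa [LinearMap.flip_apply, LinearMap.id_apply] at h1
  sh_snoc u v a b := by
    simp only [SH_e, List.reverse_append, List.reverse_cons, List.reverse_nil, List.nil_append,
      List.singleton_append, shr_cons]
  hs_nil := HS_nil
  hs_snoc := HS_snoc

/-- the areas -/
noncomputable def AR : FreeMagma A → V A
  | .of a => e [a]
  | .mul x y => HS (AR x) (AR y) - HS (AR y) (AR x)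

theorem AR_of (a : A) : AR (FreeMagma.of a) = e [a] := rfl

theorem AR_mul (x y : FreeMagma A) : AR (x * y) = DD.hs (AR x) (AR y) - DD.hs (AR y) (AR x) := rfl

end Pool.Agent.Y900.HY
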