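import Pool.Agent.Y900.HY.Norm
import Pool.Agent.Y124.StdC

/-!
# Local algebraic independence of the Hall areas of iterated primitives
-/

set_option autoImplicit false

open Filter Set
open scoped Topology

namespace Pool.Agent.Y900.HY

open H569R3.Hall
open Pool.Agent.Y119.UP (wd mem_wd)

/-- extension of scalars from `ℚ` to `ℂ` for independent combinations of words -/
theorem ext_indep {κ ι : Type} {v : ι → V κ} (hv : LinearIndependent ℚ v) (S : Finset ι) (c : ι → ℂ)
    (h : ∀ w : List κ, ∑ i ∈ S, c i * ((coef (v i) w : ℚ) : ℂ) = 0) : ∀ i ∈ S, c i = 0 := by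
  intro i hi
  rw [← Module.forall_dual_apply_eq_zero_iff ℚ (c i)]
  intro φ
  have h1 : ∑ i ∈ S, φ (c i) • v i = 0 := by
    refine Finsupp.ext (f := (∑ i ∈ S, φ (c i) • v i : List κ →₀ ℚ)) (g := (0 : List κ →₀ ℚ)) fun w => ?_
    have h2 := congrArg φ (h w)
    rw [map_sum, map_zero] at h2
    have h3 : ∀ i, φ (c i * ((coef (v i) w : ℚ) : ℂ)) = φ (c i) * coef (v i) w := by
      intro i
      have h4 : c i * ((coef (v i) w : ℚ) : ℂ) = (coef (v i) w : ℚ) • c i := by
        rw [Rat.smul_def, mul_comm]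
      rw [h4, map_smul, smul_eq_mul, mul_comm]
    rw [Finset.sum_congr rfl fun i _ => h3 i] at h2
    rw [Finsupp.coe_zero, Pi.zero_apply, ← h2]
    exact Finsupp.finsetSum_apply S (fun i => (φ (c i) • v i : List κ →₀ ℚ)) w
  exact linearIndependent_iff'.1 hv S (fun i => φ (c i)) h1 i hi

variable {κ : Type} [Fintype κ] [DecidableEq κ]

omit [Fintype κ] [DecidableEq κ] in
theorem lift_sum (φ : List κ → ℂ) (f : List κ →₀ ℚ) (S : Finset (List κ)) (hS : ∀ w, f w ≠ 0 → w ∈ S) :
    (Finsupp.lift ℂ ℚ (List κ) φ : (List κ →₀ ℚ) →ₗ[ℚ] ℂ) f = ∑ w ∈ S, ((f w : ℚ) : ℂ) * φ w := by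
  classical
  rw [Finsupp.lift_apply, Finsupp.sum]
  refine Finset.sum_subset_zero_on_sdiff ?_ ?_ ?_
  · intro w hw
    exact hS w (Finsupp.mem_support_iff.1 hw)
  · intro w hw
    rw [Finset.mem_sdiff] at hw
    rw [Finsupp.notMem_support_iff.1 hw.2, Rat.cast_zero, zero_mul]
  · intro w _
    rw [Rat.smul_def]

/-- the evaluation as a sum over words -/
theorem ev_eq_sum (J : List κ → ℂ → ℂ) (t : ℂ) (N : ℕ) (f : V κ) (hf : ∀ w, coef f w ≠ 0 → w.length ≤ N) :
    ev J t f = ∑ w ∈ wd κ N, ((coef f w.reverse : ℚ) : ℂ) * J w t := by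
  classical
  have h1 : ev J t f = ∑ w ∈ (wd κ N).image List.reverse, ((coef f w : ℚ) : ℂ) * J w.reverse t := by
    refine lift_sum (fun w : List κ => J w.reverse t) f _ fun w hw => ?_
    rw [Finset.mem_image]
    refine ⟨w.reverse, ?_, List.reverse_reverse w⟩
    rw [mem_wd, List.length_reverse]
    exact hf w hw
  rw [h1, Finset.sum_image (fun a _ b _ hab => List.reverse_injective hab)]
  refine Finset.sum_congr rfl fun w _ => ?_
  rw [List.reverse_reverse]

/-- the functions attached to the Hall trees -/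
noncomputable def FY (J : List κ → ℂ → ℂ) {W : ℕ} (y : YT κ W) (t : ℂ) : ℂ := ev J t (AR y.t)

omit [DecidableEq κ] in
theorem ev_MO {U : Set ℂ} {u : κ → ℂ → ℂ} {J : List κ → ℂ → ℂ} (hU : IsOpen U) (hUc : IsPreconnected U)
    (hJ : Iter U u J) {c : ℂ} (hc : c ∈ U) (h0 : ∀ i w, J (i :: w) c = 0) {W : ℕ} (x : YT κ W → ℕ) (t : ℂ)
    (ht : t ∈ U) : ev J t (ofR DD (MO x)) = ∏ y, FY J y t ^ x y := by
  have h1 : ev J t (ofR DD (MO x)) = evR hU hUc hJ hc h0 t ht (MO x) := rfl
  rw [h1, MO, map_prod]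
  refine Finset.prod_congr rfl fun y _ => ?_
  rw [map_pow]
  rfl

omit [Fintype κ] [DecidableEq κ] in
theorem FY_an {U : Set ℂ} {u : κ → ℂ → ℂ} {J : List κ → ℂ → ℂ} (hU : IsOpen U) (hJ : Iter U u J) {W : ℕ}
    (y : YT κ W) : AnalyticOnNhd ℂ (FY J y) U := by
  intro t ht
  have h1 : ∀ f : V κ, AnalyticAt ℂ (fun s => ev J s f) t := by
    intro f
    refine V_induction (p := fun f => AnalyticAt ℂ (fun s => ev J s f) t) f ?_ ?_ ?_
    · simp only [map_zero]
      exact analyticAt_const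
    · intro f g hf hg
      simp only [map_add]
      exact hf.add hg
    · intro q w
      simp only [map_smul, ev_e, Rat.smul_def]
      exact analyticAt_const.mul (hJ.an hU w.reverse t ht)
  exact h1 _

/-- the conditions on the differentials at a point -/
structure Good (t₀ : ℂ) (u : κ → ℂ → ℂ) : Prop where
  an : ∀ i, AnalyticAt ℂ (u i) t₀
  alg : ∀ i, AlgAt t₀ (u i)
  prim : ∀ (c : κ → ℂ) (g : ℂ → ℂ), AlgAt t₀ g → (∀ᶠ t in 𝓝 t₀, HasDerivAt g (∑ i, c i * u i t) t) → c = 0

omit [Fintype κ] [DecidableEq κ] in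
theorem Iter.near {U : Set ℂ} {u : κ → ℂ → ℂ} {J : List κ → ℂ → ℂ} (hU : IsOpen U) (hJ : Iter U u J) {t₀ : ℂ}
    (ht₀ : t₀ ∈ U) : (∀ᶠ t in 𝓝 t₀, J [] t = 1) ∧
    ∀ i w, ∀ᶠ t in 𝓝 t₀, HasDerivAt (J (i :: w)) (u i t * J w t) t := by
  refine ⟨?_, fun i w => ?_⟩
  · filter_upwards [hU.mem_nhds ht₀] with t ht
    exact hJ.nil t ht
  · filter_upwards [hU.mem_nhds ht₀] with t ht
    exact hJ.cons i w t ht

theorem locInd_of_good {U : Set ℂ} {u : κ → ℂ → ℂ} {J : List κ → ℂ → ℂ} (hU : IsOpen U) (hUc : IsPreconnected U)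
    (hJ : Iter U u J) {c : ℂ} (hc : c ∈ U) (h0 : ∀ i w, J (i :: w) c = 0) (W : ℕ) {t₀ : ℂ} (ht₀ : t₀ ∈ U)
    (hg : Good t₀ u) : Pool.Agent.Y124.LocInd (fun y : YT κ W => FY J y) t₀ := by
  classical
  intro P hP
  -- the exponents
  let xs : (Option (YT κ W) →₀ ℕ) → YT κ W → ℕ := fun s y => s (some y)
  -- a bound for the lengths
  obtain ⟨N, hN⟩ : ∃ N : ℕ, ∀ s ∈ P.support, ∀ w, coef (ofR DD (MO (xs s))) w ≠ 0 → w.length ≤ N := by
    have h1 : ∀ s : Option (YT κ W) →₀ ℕ, ∃ N : ℕ, ∀ w, coef (ofR DD (MO (xs s))) w ≠ 0 → w.length ≤ N := by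
      intro s
      refine ⟨((ofR DD (MO (xs s)) : List κ →₀ ℚ).support).sup List.length, fun w hw => ?_⟩
      exact Finset.le_sup (f := List.length) (Finsupp.mem_support_iff.2 hw)
    choose Nf hNf using h1
    exact ⟨P.support.sup Nf, fun s hs w hw => (hNf s w hw).trans (Finset.le_sup (f := Nf) hs)⟩
  let p : List κ → Polynomial ℂ := fun w => ∑ s ∈ P.support,
    Polynomial.monomial (s none) (P.coeff s * ((coef (ofR DD (MO (xs s))) w.reverse : ℚ) : ℂ))
  have hrel : ∀ᶠ t in 𝓝 t₀, ∑ w ∈ wd κ N, (p w).eval t * J w t = 0 := by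
    filter_upwards [hP, hU.mem_nhds ht₀] with t ht htU
    rw [← ht, MvPolynomial.eval_eq']
    have h2 : ∀ s ∈ P.support, MvPolynomial.coeff s P * ∏ o, (o.elim t fun y => FY J y t) ^ s o =
        ∑ w ∈ wd κ N, (Polynomial.monomial (s none) (P.coeff s *
          ((coef (ofR DD (MO (xs s))) w.reverse : ℚ) : ℂ))).eval t * J w t := by
      intro s hs
      rw [Fintype.prod_option]
      have h3 : ∏ y : YT κ W, ((some y).elim t fun y => FY J y t) ^ s (some y) = ev J t (ofR DD (MO (xs s))) := by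
        rw [ev_MO hU hUc hJ hc h0 (xs s) t htU]
        rfl
      rw [h3, ev_eq_sum J t N _ (hN s hs), Finset.mul_sum, Finset.mul_sum]
      refine Finset.sum_congr rfl fun w _ => ?_
      rw [Polynomial.eval_monomial]
      simp only [Option.elim_none]
      ring
    rw [Finset.sum_congr rfl h2, Finset.sum_comm]
    refine Finset.sum_congr rfl fun w _ => ?_
    simp only [p]
    rw [Polynomial.eval_finsetSum, Finset.sum_mul]
  have hp0 := lin_ind t₀ hg.an hg.alg hg.prim (Iter.near hU hJ ht₀).1 (Iter.near hU hJ ht₀).2 N p hrel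
  have hcoef : ∀ (k : ℕ) (w : List κ), ∑ s ∈ P.support.filter (fun s => s none = k),
      P.coeff s * ((coef (ofR DD (MO (xs s))) w : ℚ) : ℂ) = 0 := by
    intro k w
    by_cases hw : w.length ≤ N
    · have h3 := congrArg (fun q : Polynomial ℂ => q.coeff k) (hp0 w.reverse (by rwa [mem_wd, List.length_reverse]))
      simp only [p, Polynomial.finsetSum_coeff, Polynomial.coeff_monomial, Polynomial.coeff_zero,
        List.reverse_reverse] at h3
      rw [Finset.sum_filter]
      exact h3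
    · refine Finset.sum_eq_zero fun s hs => ?_
      have h4 : coef (ofR DD (MO (xs s))) w = 0 := by
        by_contra hne
        exact hw (hN s (Finset.mem_filter.1 hs).1 w hne)
      rw [h4, Rat.cast_zero, mul_zero]
  ext s
  rw [MvPolynomial.coeff_zero]
  by_cases hs : s ∈ P.support
  · have hindep := MO_indep (A := κ) W
    have h5 : LinearIndependent ℚ (fun s : {s : Option (YT κ W) →₀ ℕ // s none = s none ∧ True} =>
        (0 : V κ)) → True := fun _ => trivial
    -- the exponents with a fixed power of the variable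
    have hinj : ∀ k : ℕ, Function.Injective (fun s : {s : Option (YT κ W) →₀ ℕ // s none = k} => xs s.1) := by
      intro k s s' h
      refine Subtype.ext (Finsupp.ext fun o => ?_)
      cases o with
      | none => rw [s.2, s'.2]
      | some y => exact congrFun h y
    have h6 := hindep.comp (fun s' : {s' : Option (YT κ W) →₀ ℕ // s' none = s none} => xs s'.1) (hinj (s none))
    have h7 := ext_indep (v := fun s' : {s' : Option (YT κ W) →₀ ℕ // s' none = s none} => (ofR DD (MO (xs s'.1)) : V κ))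
      h6 ((P.support.filter fun s' => s' none = s none).subtype _) (fun s' => P.coeff s'.1) (by
        intro w
        have h8 := hcoef (s none) w
        rw [Finset.sum_subtype_of_mem (f := fun s' : Option (YT κ W) →₀ ℕ =>
          P.coeff s' * ((coef (ofR DD (MO (xs s'))) w : ℚ) : ℂ)) (fun s' hs' => (Finset.mem_filter.1 hs').2)]
        exact h8)
    exact h7 ⟨s, rfl⟩ (Finset.mem_subtype.2 (Finset.mem_filter.2 ⟨hs, rfl⟩))
  · exact MvPolynomial.notMem_support_iff.1 hs

/-- independence at one point implies independence at all points of a connected set -/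
theorem locInd_spread {Y : Type} [Fintype Y] {U : Set ℂ} (hU : IsOpen U) (hUc : IsPreconnected U) (f : Y → ℂ → ℂ)
    (hf : ∀ y, AnalyticOnNhd ℂ (f y) U) {p : ℂ} (hp : p ∈ U) (h : Pool.Agent.Y124.LocInd f p) {t₀ : ℂ} (ht₀ : t₀ ∈ U) :
    Pool.Agent.Y124.LocInd f t₀ := by
  intro P hP
  have h1 : AnalyticOnNhd ℂ (fun t => MvPolynomial.eval (fun o : Option Y => o.elim t fun y => f y t) P) U := by
    intro t ht
    have h2 : (fun t => MvPolynomial.eval (fun o : Option Y => o.elim t fun y => f y t) P) =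
        fun t => ∑ s ∈ P.support, P.coeff s * ∏ o, (o.elim t fun y => f y t) ^ s o := by
      funext t
      rw [MvPolynomial.eval_eq']
    rw [h2]
    refine Finset.analyticAt_fun_sum _ fun s _ => analyticAt_const.mul (Finset.analyticAt_fun_prod _ fun o _ => ?_)
    cases o with
    | none => exact analyticAt_id.pow _
    | some y => exact (hf y t ht).pow _
  have h3 := h1.eqOn_zero_of_preconnected_of_eventuallyEq_zero hUc ht₀ hP
  exact h P (by
    filter_upwards [hU.mem_nhds hp] with t ht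
    exact h3 ht)

end Pool.Agent.Y900.HY
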