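import Pool.Agent.Y900.HY.Loc
import Pool.Agent.Y900.HY.Conv

/-!
# Linear relations between products of values of iterated primitives at points of number fields
-/

set_option autoImplicit false

open Filter Set NumberField
open scoped Topology

namespace Pool.Agent.Y900.HY

open H569R3.Hall
open Pool.Agent.Y119.UP (wd mem_wd)
open Pool.Agent.Y124 Pool.Agent.Y120

theorem common_den {Ω X : Type} [Fintype Ω] [Fintype X] (β : Ω → X → ℚ) :
    ∃ (N : ℕ) (b : Ω → X → ℤ), 0 < N ∧ ∀ w x, ((b w x : ℤ) : ℚ) = (N : ℚ) * β w x := by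
  classical
  refine ⟨∏ w, ∏ x, (β w x).den, fun w x => ((∏ w, ∏ x, (β w x).den : ℕ) : ℤ) / ((β w x).den : ℤ) * (β w x).num,
    Finset.prod_pos fun w _ => Finset.prod_pos fun x _ => (β w x).den_pos, fun w x => ?_⟩
  have h1 : ((β w x).den : ℤ) ∣ ((∏ w, ∏ x, (β w x).den : ℕ) : ℤ) := by
    rw [Int.natCast_dvd_natCast]
    exact (Finset.dvd_prod_of_mem (fun x => (β w x).den) (Finset.mem_univ x)).trans
      (Finset.dvd_prod_of_mem (fun w => ∏ x, (β w x).den) (Finset.mem_univ w))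
  have h0 : ((β w x).den : ℚ) ≠ 0 := by exact_mod_cast (β w x).den_ne_zero
  rw [Int.cast_mul, Int.cast_div h1 (by exact_mod_cast (β w x).den_ne_zero)]
  have h2 : β w x = ((β w x).num : ℚ) / ((β w x).den : ℚ) := (Rat.num_div_den _).symm
  conv_rhs => rw [h2]
  simp only [Int.cast_natCast]
  field_simp

variable {κ : Type} [Fintype κ] [DecidableEq κ]

/-- words of length at most `W` -/
abbrev Wd (κ : Type) [Fintype κ] [DecidableEq κ] (W : ℕ) : Type := {w : List κ // w ∈ wd κ W}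

theorem main_iter {h : Type} [Fintype h] [DecidableEq h] {U : Set ℂ} (hU : IsOpen U) (hUc : IsPreconnected U)
    {u : κ → ℂ → ℂ} {I : List κ → ℂ → ℂ} (hI : Iter U u I) {p : ℂ} (hp : p ∈ U) (hg : Good p u) {L : Set ℂ}
    (hL : IsCompact L) (hLU : L ⊆ U) (m n W : ℕ) (A ε : ℝ) (hε : 0 < ε) :
    ∃ B C T₀ : ℝ, 0 ≤ C ∧ 2 ≤ T₀ ∧ ∀ (K : Type) [Field K] [NumberField K], Module.finrank ℚ K ≤ m → ∀ (io : K →+* ℂ)
      (ξ : h → ℂ) (T : ℝ), T₀ ≤ T → ∀ E : Set (Fin n → K),
      (∀ t ∈ E, (∀ j, HtLe K T (t j) ∧ io (t j) ∈ L) ∧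
        RelK K io ξ (fun w : Fin n → Wd κ W => ∏ j, I (w j).1 (io (t j))) (T ^ A) (T ^ (-B))) →
      E.Finite ∧ (E.ncard : ℝ) ≤ C * T ^ ε * (({x : K | HtLe K T x ∧ io x ∈ L}.ncard : ℝ)) ^ (n - 1) := by
  classical
  obtain ⟨hJ, h0⟩ := nrm_iter hU hI p hp
  set J := nrm I p with hJdef
  have hloc : ∀ t ∈ L, LocInd (fun y : YT κ W => FY J y) t := fun t ht =>
    locInd_spread hU hUc _ (fun y => FY_an hU hJ y) hp (locInd_of_good hU hUc hJ hp h0 W hp hg) (hLU ht)
  have hv : ∀ g, OneV g (fun R T => {t | t ∈ L ∧ Pt R T t}) (fun (t : ℂ) (y : YT κ W) => FY J y t) := fun g =>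
    oneV_of g (fun y : YT κ W => FY J y) L hL (fun y t ht => FY_an hU hJ y t (hLU ht)) hloc
  -- the coefficients
  have hβ : ∀ w : List κ, ∃ β : (YT κ W → Fin (W + 1)) → ℚ, w.length ≤ W →
      ∀ t ∈ U, J w t = ∑ x : YT κ W → Fin (W + 1), ((β x : ℚ) : ℂ) * ∏ y, FY J y t ^ (x y : ℕ) := by
    intro w
    by_cases hw : w.length ≤ W
    · obtain ⟨β, hβ⟩ := exists_coeff W w.reverse (by rwa [List.length_reverse])
      refine ⟨β, fun _ t ht => ?_⟩
      have h2 : J w t = ev J t (e w.reverse) := by rw [ev_e, List.reverse_reverse]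
      have h3 : ev J t (e w.reverse) = ev J t (ofR DD (∑ x : YT κ W → Fin (W + 1), β x • MO fun y => (x y : ℕ))) := by
        rw [hβ]
        rfl
      have h4 : ev J t (ofR DD (∑ x : YT κ W → Fin (W + 1), β x • MO fun y => (x y : ℕ))) =
          ∑ x : YT κ W → Fin (W + 1), ev J t (ofR DD (β x • MO fun y => (x y : ℕ))) := by
        have : ∀ S : Finset (YT κ W → Fin (W + 1)), ev J t (ofR DD (∑ x ∈ S, β x • MO fun y => (x y : ℕ))) =
            ∑ x ∈ S, ev J t (ofR DD (β x • MO fun y => (x y : ℕ))) := by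
          intro S
          induction S using Finset.induction_on with
          | empty =>
            rw [Finset.sum_empty, Finset.sum_empty]
            exact map_zero (ev J t)
          | insert a S ha ih =>
            rw [Finset.sum_insert ha, Finset.sum_insert ha, ← ih]
            exact map_add (ev J t) _ _
        exact this Finset.univ
      rw [h2, h3, h4]
      refine Finset.sum_congr rfl fun x _ => ?_
      have h5 : ev J t (ofR DD (β x • MO fun y => (x y : ℕ))) = β x • ev J t (ofR DD (MO fun y => (x y : ℕ))) :=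
        map_smul (ev J t) _ _
      rw [h5, ev_MO hU hUc hJ hp h0 _ t ht, Rat.smul_def]
    · exact ⟨0, fun h => absurd h hw⟩
  choose β hβ' using hβ
  obtain ⟨N, nb, hN, hnb⟩ := common_den (fun (w : Wd κ W) x => β w.1 x)
  -- integral coefficients for all words
  let nβ : List κ → (YT κ W → Fin (W + 1)) → ℤ := fun w x => if hw : w ∈ wd κ W then nb ⟨w, hw⟩ x else 0
  have hnβ : ∀ w : List κ, w.length ≤ W → ∀ t ∈ U, (N : ℂ) * J w t =
      ∑ x : YT κ W → Fin (W + 1), ((nβ w x : ℤ) : ℂ) * ∏ y, FY J y t ^ (x y : ℕ) := by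
    intro w hw t ht
    rw [hβ' w hw t ht, Finset.mul_sum]
    refine Finset.sum_congr rfl fun x _ => ?_
    have hmem : w ∈ wd κ W := by rwa [mem_wd]
    have h1 : nβ w x = nb ⟨w, hmem⟩ x := dif_pos hmem
    have h2 := hnb ⟨w, hmem⟩ x
    have h3 : (((nb ⟨w, hmem⟩ x : ℤ) : ℚ) : ℂ) = ((N : ℚ) : ℂ) * ((β w x : ℚ) : ℂ) := by
      rw [h2]
      push_cast
      ring
    rw [h1]
    have h4 : ((nb ⟨w, hmem⟩ x : ℤ) : ℂ) = (N : ℂ) * ((β w x : ℚ) : ℂ) := by
      simpa using h3
    rw [h4]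
    ring
  let b : Wd κ W → Wd κ W → (YT κ W → Fin (W + 1)) → ℤ := fun w v x =>
    ∑ k ∈ Finset.range (w.1.length + 1), if w.1.drop k = v.1 then nβ (w.1.take k) x else 0
  let kap : Wd κ W → ℂ := fun v => I v.1 p
  have hb : ∀ (w : Wd κ W) x, ∑ v, kap v * ((b w v x : ℤ) : ℂ) =
      ∑ k ∈ Finset.range (w.1.length + 1), I (w.1.drop k) p * ((nβ (w.1.take k) x : ℤ) : ℂ) := by
    intro w x
    have e1 : ∀ v : Wd κ W, kap v * ((b w v x : ℤ) : ℂ) = ∑ k ∈ Finset.range (w.1.length + 1),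
        if w.1.drop k = v.1 then I v.1 p * ((nβ (w.1.take k) x : ℤ) : ℂ) else 0 := by
      intro v
      simp only [kap, b]
      push_cast
      rw [Finset.mul_sum]
      refine Finset.sum_congr rfl fun k _ => ?_
      split_ifs <;> simp
    rw [Finset.sum_congr rfl fun v _ => e1 v, Finset.sum_comm]
    refine Finset.sum_congr rfl fun k hk => ?_
    have hmem : w.1.drop k ∈ wd κ W := by
      have h1 := (mem_wd W w.1).1 w.2
      rw [mem_wd, List.length_drop]
      omega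
    rw [Finset.sum_eq_single (⟨w.1.drop k, hmem⟩ : Wd κ W)]
    · rw [if_pos rfl]
    · intro v _ hv
      rw [if_neg]
      intro hcon
      exact hv (Subtype.ext hcon.symm)
    · intro hcon
      exact absurd (Finset.mem_univ _) hcon
  have hIrep : ∀ (w : Wd κ W), ∀ t ∈ U, (N : ℂ) * I w.1 t =
      ∑ x : YT κ W → Fin (W + 1), (∑ v, kap v * ((b w v x : ℤ) : ℂ)) * ∏ y, FY J y t ^ (x y : ℕ) := by
    intro w t ht
    have hw := (mem_wd W w.1).1 w.2
    rw [iter_eq I p t (hI.nil p hp) w.1, Finset.mul_sum]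
    have e1 : ∀ k ∈ Finset.range (w.1.length + 1), (N : ℂ) * (nrm I p (w.1.take k) t * I (w.1.drop k) p) =
        ∑ x : YT κ W → Fin (W + 1), (I (w.1.drop k) p * ((nβ (w.1.take k) x : ℤ) : ℂ)) *
          ∏ y, FY J y t ^ (x y : ℕ) := by
      intro k hk
      have h1 := hnβ (w.1.take k) (by rw [List.length_take]; omega) t ht
      rw [← hJdef, ← mul_assoc, h1, Finset.sum_mul]
      refine Finset.sum_congr rfl fun x _ => ?_
      ring
    rw [Finset.sum_congr rfl e1, Finset.sum_comm]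
    refine Finset.sum_congr rfl fun x _ => ?_
    rw [hb, Finset.sum_mul]
  refine lin_engine m n W (fun (t : ℂ) (y : YT κ W) => FY J y t) L hv (fun (w : Wd κ W) t => I w.1 t) kap b N hN
    (fun w t ht => hIrep w t (hLU ht)) ?_ A ε hε
  -- injectivity
  intro a ha
  have hzero : ∀ t ∈ U, ∑ w : Wd κ W, a w * I w.1 t = 0 := by
    intro t ht
    have hN0 : (N : ℂ) ≠ 0 := by exact_mod_cast hN.ne'
    apply mul_left_cancel₀ hN0
    rw [mul_zero, Finset.mul_sum]
    have e1 : ∀ w : Wd κ W, (N : ℂ) * (a w * I w.1 t) = ∑ x : YT κ W → Fin (W + 1),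
        (a w * ∑ v, kap v * ((b w v x : ℤ) : ℂ)) * ∏ y, FY J y t ^ (x y : ℕ) := by
      intro w
      rw [mul_left_comm, hIrep w t ht, Finset.mul_sum]
      refine Finset.sum_congr rfl fun x _ => ?_
      ring
    rw [Finset.sum_congr rfl fun w _ => e1 w, Finset.sum_comm]
    refine Finset.sum_eq_zero fun x _ => ?_
    rw [← Finset.sum_mul, ha x, zero_mul]
  let q : List κ → Polynomial ℂ := fun w => if hw : w ∈ wd κ W then Polynomial.C (a ⟨w, hw⟩) else 0
  have hlin := lin_ind p hg.an hg.alg hg.prim (Iter.near hU hI hp).1 (Iter.near hU hI hp).2 W q (by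
    filter_upwards [hU.mem_nhds hp] with t ht
    rw [← hzero t ht, ← Finset.sum_coe_sort (wd κ W) (fun w => (q w).eval t * I w t)]
    refine Finset.sum_congr rfl fun w _ => ?_
    have h1 : q w.1 = Polynomial.C (a w) := dif_pos w.2
    rw [h1, Polynomial.eval_C])
  funext w
  have h1 := hlin w.1 w.2
  have h2 : q w.1 = Polynomial.C (a w) := dif_pos w.2
  rw [h2, Polynomial.C_eq_zero] at h1
  exact h1

end Pool.Agent.Y900.HY
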