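import Pool.Agent.Y900.HY.Hall

/-!
# Monomials in the Hall areas: independence and spanning
-/

set_option autoImplicit false

namespace Pool.Agent.Y900.HY

open H569R3.Hall

variable {A : Type} [Finite A]

/-- the Hall trees of size at most `W` -/
@[ext] structure YT (A : Type) (W : ℕ) : Type where
  /-- the tree -/
  t : FreeMagma A
  /-- a Hall tree -/
  hH : isH t
  /-- of bounded size -/
  hl : (fol t).length ≤ W

noncomputable instance (W : ℕ) : Fintype (YT A W) :=
  haveI : Finite {h : FreeMagma A // (fol h).length ≤ W} := (finite_trees (A := A) W).to_subtype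
  haveI : Finite (YT A W) := Finite.of_injective (fun y : YT A W => (⟨y.t, y.hl⟩ : {h : FreeMagma A // (fol h).length ≤ W}))
    fun y y' h => YT.ext (congrArg Subtype.val h)
  Fintype.ofFinite _

noncomputable instance (W : ℕ) : DecidableEq (YT A W) := Classical.decEq _

/-- the monomials in the areas -/
noncomputable def MO {W : ℕ} (x : YT A W → ℕ) : (DD (A := A)).Rg := ∏ y, (toR DD (AR y.t)) ^ x y

/-- the list of trees of a monomial -/
noncomputable def ML {W : ℕ} (x : YT A W → ℕ) : List (FreeMagma A) :=
  (∑ y, x y • ({y.t} : Multiset (FreeMagma A))).sort (fun a b => b ≤ a)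

theorem ML_coe {W : ℕ} (x : YT A W → ℕ) :
    ((ML x : List (FreeMagma A)) : Multiset (FreeMagma A)) = ∑ y, x y • ({y.t} : Multiset (FreeMagma A)) :=
  Multiset.sort_eq _ _

theorem ML_NI {W : ℕ} (x : YT A W → ℕ) : NI {t : FreeMagma A | isH t} (ML x) := by
  refine ⟨fun t ht => ?_, ?_⟩
  · have h1 : t ∈ (∑ y, x y • ({y.t} : Multiset (FreeMagma A))) := by
      rw [← ML_coe]
      exact ht
    rw [Multiset.mem_sum] at h1
    obtain ⟨y, -, hy⟩ := h1
    have h2 := Multiset.mem_of_mem_nsmul hy
    rw [Multiset.mem_singleton] at h2
    rw [h2]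
    exact y.hH
  · have h1 := Multiset.pairwise_sort (∑ y, x y • ({y.t} : Multiset (FreeMagma A))) (fun a b => b ≤ a)
    exact h1.imp fun h => not_lt.2 h

omit [Finite A] in
theorem P_eq_prod (l : List (FreeMagma A)) :
    (toR DD (P DD AR l) : (DD (A := A)).Rg) = (l.map fun t => toR DD (AR t)).prod := by
  induction l with
  | nil => rfl
  | cons t l ih =>
    rw [List.map_cons, List.prod_cons, ← ih]
    rfl

theorem P_ML {W : ℕ} (x : YT A W → ℕ) : (toR DD (P DD AR (ML x)) : (DD (A := A)).Rg) = MO x := by
  rw [P_eq_prod]
  have h1 : ((ML x).map fun t => toR DD (AR t)).prod =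
      (Multiset.map (fun t => toR DD (AR t)) ((ML x : List (FreeMagma A)) : Multiset (FreeMagma A))).prod := by
    rw [Multiset.map_coe, Multiset.prod_coe]
  rw [h1, ML_coe, MO]
  rw [← Multiset.coe_mapAddMonoidHom, map_sum, Multiset.prod_sum]
  refine Finset.prod_congr rfl fun y _ => ?_
  rw [map_nsmul, Multiset.prod_nsmul, Multiset.coe_mapAddMonoidHom, Multiset.map_singleton, Multiset.prod_singleton]

theorem ML_inj {W : ℕ} : Function.Injective (fun x : YT A W → ℕ => ML x) := by
  classical
  intro x x' h
  have h1 : (∑ y, x y • ({y.t} : Multiset (FreeMagma A))) = ∑ y, x' y • ({y.t} : Multiset (FreeMagma A)) := by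
    rw [← ML_coe, ← ML_coe]
    exact congrArg _ h
  have h2 : ∀ (z : YT A W → ℕ) (y : YT A W), Multiset.count y.t (∑ y, z y • ({y.t} : Multiset (FreeMagma A))) = z y := by
    intro z y
    rw [Multiset.count_sum', Finset.sum_eq_single y]
    · rw [Multiset.count_nsmul, Multiset.count_singleton_self, mul_one]
    · intro b _ hb
      rw [Multiset.count_nsmul, Multiset.count_singleton, if_neg, mul_zero]
      intro hcon
      exact hb (YT.ext hcon.symm)
    · intro h
      exact absurd (Finset.mem_univ _) h
  funext y
  rw [← h2 x y, ← h2 x' y, h1]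

/-- independence -/
theorem MO_indep (W : ℕ) : LinearIndependent ℚ (fun x : YT A W → ℕ => (MO x : (DD (A := A)).Rg)) := by
  have h1 := (main DD AR AR_of AR_mul (isHall (A := A))).1
  have h2 := h1.comp (fun x : YT A W → ℕ => (⟨ML x, ML_NI x⟩ : {l : List (FreeMagma A) // NI {t | isH t} l}))
    (fun x x' h => ML_inj (congrArg Subtype.val h))
  have h3 : (fun x : YT A W → ℕ => (MO x : (DD (A := A)).Rg)) = (fun l : {l : List (FreeMagma A) // NI {t | isH t} l} =>
      P DD AR l.1) ∘ (fun x : YT A W → ℕ => (⟨ML x, ML_NI x⟩ : {l : List (FreeMagma A) // NI {t | isH t} l})) := by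
    funext x
    exact (P_ML x).symm
  rw [h3]
  exact h2

omit [Finite A] in
theorem mem_length (l : List (FreeMagma A)) (t : FreeMagma A) (ht : t ∈ l) : (fol t).length ≤ (folL l).length := by
  induction l with
  | nil => simp at ht
  | cons s l ih =>
    rw [folL_cons, List.length_append]
    rcases List.mem_cons.1 ht with rfl | h
    · omega
    · have := ih h
      omega

omit [Finite A] in
theorem length_le (l : List (FreeMagma A)) : l.length ≤ (folL l).length := by
  induction l with
  | nil => simp
  | cons s l ih =>
    rw [folL_cons, List.length_append, List.length_cons]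
    have := fol_pos s
    omega

/-- spanning -/
theorem e_mem_span (W : ℕ) (w : List A) (hw : w.length ≤ W) :
    (e w : V A) ∈ Submodule.span ℚ (Set.range fun x : YT A W → Fin (W + 1) =>
      (MO (fun y => (x y : ℕ)) : (DD (A := A)).Rg)) := by
  classical
  have h1 := (main DD AR AR_of AR_mul (isHall (A := A))).2
  have h2 : (e w : V A) ∈ Submodule.span ℚ (Set.range fun l : {l : List (FreeMagma A) // NI {t | isH t} l} =>
      P DD AR l.1) := by
    rw [h1]
    trivial
  have h3 : pr w.length (e w : V A) = e w := by rw [pr_e, if_pos rfl]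
  rw [← h3]
  refine Submodule.span_induction (p := fun (f : V A) _ => (pr w.length f : V A) ∈ Submodule.span ℚ
    (Set.range fun x : YT A W → Fin (W + 1) => (MO (fun y => (x y : ℕ)) : (DD (A := A)).Rg))) ?_ ?_ ?_ ?_ h2
  · rintro _ ⟨⟨l, hl⟩, rfl⟩
    have h4 := P_mem DD AR AR_of AR_mul l
    by_cases h5 : (folL l).length = w.length
    · have h6 : pr w.length (P DD AR l) = P DD AR l := by
        rw [← h5]
        exact pr_eq h4
      simp only
      rw [h6]
      refine Submodule.subset_span ⟨fun y => ⟨l.count y.t, ?_⟩, ?_⟩
      · have := List.count_le_length (a := y.t) (l := l)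
        have := length_le l
        omega
      · show MO (fun y : YT A W => l.count y.t) = _
        have h7 : l = ML (fun y : YT A W => l.count y.t) := by
          have h8 : (l : Multiset (FreeMagma A)) = ML (fun y : YT A W => l.count y.t) := by
            rw [ML_coe]
            ext t
            rw [Multiset.coe_count, Multiset.count_sum']
            by_cases ht : t ∈ l
            · have hY : (fol t).length ≤ W := by
                have := mem_length l t ht
                omega
              rw [Finset.sum_eq_single (⟨t, hl.1 t ht, hY⟩ : YT A W)]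
              · rw [Multiset.count_nsmul, Multiset.count_singleton_self, mul_one]
              · intro b _ hb
                rw [Multiset.count_nsmul, Multiset.count_singleton, if_neg, mul_zero]
                intro hcon
                exact hb (YT.ext hcon.symm)
              · intro h
                exact absurd (Finset.mem_univ _) h
            · rw [List.count_eq_zero_of_not_mem ht]
              symm
              refine Finset.sum_eq_zero fun y _ => ?_
              rw [Multiset.count_nsmul, Multiset.count_singleton]
              split_ifs with h9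
              · rw [← h9, List.count_eq_zero_of_not_mem ht, zero_mul]
              · rw [mul_zero]
          have h9 := Multiset.coe_eq_coe.1 h8
          refine h9.eq_of_pairwise (le := fun a b : FreeMagma A => ¬ a < b) ?_ hl.2 (ML_NI _).2
          intro a b _ _ hab hba
          exact le_antisymm (not_lt.1 hba) (not_lt.1 hab) |>.symm ▸ rfl
        conv_rhs => rw [h7]
        exact (P_ML _).symm
    · have h6 : pr w.length (P DD AR l) = 0 := pr_mem h4 _ (fun h => h5 h.symm)
      simp only
      rw [h6]
      exact Submodule.zero_mem _
  · rw [map_zero]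
    exact Submodule.zero_mem _
  · intro f g _ _ hf hg
    have : pr w.length (f + g) = pr w.length f + pr w.length g := map_add _ _ _
    rw [this]
    exact Submodule.add_mem _ hf hg
  · intro c f _ hf
    have : pr w.length (c • f) = c • pr w.length f := map_smul _ _ _
    rw [this]
    exact Submodule.smul_mem _ _ hf

/-- change of type -/
noncomputable def wR (w : List A) : (DD (A := A)).Rg := toR DD (e w)

theorem exists_coeff (W : ℕ) (w : List A) (hw : w.length ≤ W) :
    ∃ β : (YT A W → Fin (W + 1)) → ℚ, ∑ x, β x • (MO (fun y => (x y : ℕ)) : (DD (A := A)).Rg) = wR w := by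
  have h1 : wR w ∈ Submodule.span ℚ (Set.range fun x : YT A W → Fin (W + 1) =>
      (MO (fun y => (x y : ℕ)) : (DD (A := A)).Rg)) := e_mem_span W w hw
  exact (Submodule.mem_span_range_iff_exists_fun ℚ).1 h1

end Pool.Agent.Y900.HY
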