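import Pool.Agent.Y900.HY.Lin
import Pool.Agent.Y900.HY.Mon

/-!
# Normalised iterated primitives and the shuffle relations
-/

set_option autoImplicit false

open Filter Set
open scoped Topology

namespace Pool.Agent.Y900.HY

open H569R3.Hall

variable {κ : Type}

/-- iterated primitives on an open set -/
structure Iter (U : Set ℂ) (u : κ → ℂ → ℂ) (I : List κ → ℂ → ℂ) : Prop where
  nil : ∀ t ∈ U, I [] t = 1
  cons : ∀ i w, ∀ t ∈ U, HasDerivAt (I (i :: w)) (u i t * I w t) t

/-- the normalised family -/
noncomputable def nrm (I : List κ → ℂ → ℂ) (c : ℂ) : List κ → ℂ → ℂ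
  | w => fun t => I w t - ∑ k : Fin w.length, nrm I c (w.take k) t * I (w.drop k) c
termination_by w => w.length
decreasing_by
  rw [List.length_take]
  omega

theorem nrm_eq (I : List κ → ℂ → ℂ) (c t : ℂ) (w : List κ) :
    nrm I c w t = I w t - ∑ k ∈ Finset.range w.length, nrm I c (w.take k) t * I (w.drop k) c := by
  rw [nrm, Finset.sum_range]

theorem nrm_nil (I : List κ → ℂ → ℂ) (c t : ℂ) : nrm I c [] t = I [] t := by
  rw [nrm_eq]
  simp

theorem nrm_cons (I : List κ → ℂ → ℂ) (c t : ℂ) (i : κ) (w : List κ) :
    nrm I c (i :: w) t = I (i :: w) t - (I [] t * I (i :: w) c +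
      ∑ k ∈ Finset.range w.length, nrm I c (i :: w.take k) t * I (w.drop k) c) := by
  rw [nrm_eq, List.length_cons, Finset.sum_range_succ']
  simp only [List.take_succ_cons, List.drop_succ_cons, List.take_zero, List.drop_zero, nrm_nil]
  ring

theorem iter_eq (I : List κ → ℂ → ℂ) (c t : ℂ) (hc : I [] c = 1) (w : List κ) :
    I w t = ∑ k ∈ Finset.range (w.length + 1), nrm I c (w.take k) t * I (w.drop k) c := by
  rw [Finset.sum_range_succ, List.take_length, List.drop_length, hc, mul_one, nrm_eq I c t w]
  ring

theorem nrm_iter {U : Set ℂ} {u : κ → ℂ → ℂ} {I : List κ → ℂ → ℂ} (hU : IsOpen U) (h : Iter U u I) (c : ℂ)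
    (hc : c ∈ U) : Iter U u (nrm I c) ∧ ∀ i w, nrm I c (i :: w) c = 0 := by
  have key : ∀ (n : ℕ) (w : List κ), w.length ≤ n → ∀ i,
      (∀ t ∈ U, HasDerivAt (nrm I c (i :: w)) (u i t * nrm I c w t) t) ∧ nrm I c (i :: w) c = 0 := by
    intro n
    induction n with
    | zero =>
      intro w hw i
      have hw0 : w = [] := List.length_eq_zero_iff.1 (by omega)
      subst hw0
      refine ⟨fun t ht => ?_, ?_⟩
      · have h1 : nrm I c [i] =ᶠ[𝓝 t] fun s => I [i] s - I [i] c := by
          filter_upwards [hU.mem_nhds ht] with s hs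
          rw [nrm_cons]
          simp [h.nil s hs]
        refine HasDerivAt.congr_of_eventuallyEq ?_ h1
        rw [nrm_nil]
        exact (h.cons i [] t ht).sub_const _
      · rw [nrm_cons, h.nil c hc]
        simp
    | succ n ih =>
      intro w hw i
      refine ⟨fun t ht => ?_, ?_⟩
      · have h1 : nrm I c (i :: w) =ᶠ[𝓝 t] fun s => I (i :: w) s - (I (i :: w) c +
            ∑ k ∈ Finset.range w.length, nrm I c (i :: w.take k) s * I (w.drop k) c) := by
          filter_upwards [hU.mem_nhds ht] with s hs
          rw [nrm_cons, h.nil s hs, one_mul]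
        refine HasDerivAt.congr_of_eventuallyEq ?_ h1
        have h2 : HasDerivAt (fun s => ∑ k ∈ Finset.range w.length, nrm I c (i :: w.take k) s * I (w.drop k) c)
            (∑ k ∈ Finset.range w.length, (u i t * nrm I c (w.take k) t) * I (w.drop k) c) t := by
          refine HasDerivAt.fun_sum fun k hk => ?_
          refine ((ih (w.take k) ?_ i).1 t ht).mul_const _
          rw [List.length_take]
          have := Finset.mem_range.1 hk
          omega
        have h3 : HasDerivAt (fun s => I (i :: w) s - (I (i :: w) c +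
            ∑ k ∈ Finset.range w.length, nrm I c (i :: w.take k) s * I (w.drop k) c)) _ t :=
          (h.cons i w t ht).sub (h2.const_add (I (i :: w) c))
        refine h3.congr_deriv ?_
        rw [nrm_eq I c t w, mul_sub, Finset.mul_sum]
        congr 1
        refine Finset.sum_congr rfl fun k _ => ?_
        ring
      · rw [nrm_cons, h.nil c hc, one_mul, Finset.sum_eq_zero, add_zero, sub_self]
        intro k hk
        rw [(ih (w.take k) (by
          rw [List.length_take]
          have := Finset.mem_range.1 hk
          omega) i).2, zero_mul]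
  exact ⟨⟨fun t ht => by rw [nrm_nil]; exact h.nil t ht, fun i w => (key w.length w le_rfl i).1⟩,
    fun i w => (key w.length w le_rfl i).2⟩

theorem Iter.diff {U : Set ℂ} {u : κ → ℂ → ℂ} {I : List κ → ℂ → ℂ} (h : Iter U u I) (hU : IsOpen U)
    (w : List κ) : DifferentiableOn ℂ (I w) U := by
  intro t ht
  cases w with
  | nil =>
    have h1 : I [] =ᶠ[𝓝 t] fun _ => 1 := by
      filter_upwards [hU.mem_nhds ht] with s hs
      exact h.nil s hs
    exact ((differentiableAt_const (1 : ℂ)).congr_of_eventuallyEq h1).differentiableWithinAt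
  | cons i w => exact (h.cons i w t ht).differentiableAt.differentiableWithinAt

theorem Iter.an {U : Set ℂ} {u : κ → ℂ → ℂ} {I : List κ → ℂ → ℂ} (h : Iter U u I) (hU : IsOpen U)
    (w : List κ) : AnalyticOnNhd ℂ (I w) U := fun t ht =>
  Complex.analyticAt_iff_eventually_differentiableAt.2 (by
    filter_upwards [hU.mem_nhds ht] with s hs
    exact (h.diff hU w).differentiableAt (hU.mem_nhds hs))

/-- evaluation of a combination of words (the last letter is the outermost one) -/
noncomputable def ev (J : List κ → ℂ → ℂ) (t : ℂ) : V κ →ₗ[ℚ] ℂ := lext fun w => J w.reverse t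

theorem ev_e (J : List κ → ℂ → ℂ) (t : ℂ) (w : List κ) : ev J t (e w) = J w.reverse t := lext_e _ _

theorem ev_snoc_deriv {U : Set ℂ} {u : κ → ℂ → ℂ} {J : List κ → ℂ → ℂ} (hJ : Iter U u J) (i : κ) (f : V κ)
    (t : ℂ) (ht : t ∈ U) : HasDerivAt (fun s => ev J s (snoc i f)) (u i t * ev J t f) t := by
  refine V_induction (p := fun f => HasDerivAt (fun s => ev J s (snoc i f)) (u i t * ev J t f) t) f ?_ ?_ ?_
  · simp only [map_zero, mul_zero]
    exact hasDerivAt_const _ _
  · intro f g hf hg
    simp only [map_add, mul_add]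
    exact hf.add hg
  · intro c w
    simp only [map_smul, snoc_e, ev_e, List.reverse_append, List.reverse_cons, List.reverse_nil, List.nil_append,
      List.singleton_append, Rat.smul_def]
    exact ((hJ.cons i w.reverse t ht).const_mul (c : ℂ)).congr_deriv (by ring)

theorem ev_snoc_zero {J : List κ → ℂ → ℂ} {c : ℂ} (h0 : ∀ i w, J (i :: w) c = 0) (i : κ) (f : V κ) :
    ev J c (snoc i f) = 0 := by
  refine V_induction (p := fun f => ev J c (snoc i f) = 0) f ?_ ?_ ?_
  · simp only [map_zero]
  · intro f g hf hg
    rw [map_add, map_add, hf, hg, add_zero]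
  · intro q w
    rw [map_smul, map_smul, snoc_e, ev_e, List.reverse_append, List.reverse_cons, List.reverse_nil,
      List.nil_append, List.singleton_append, h0, smul_zero]

/-- the shuffle relations for words -/
theorem ev_shr {U : Set ℂ} {u : κ → ℂ → ℂ} {J : List κ → ℂ → ℂ} (hU : IsOpen U) (hUc : IsPreconnected U)
    (hJ : Iter U u J) {c : ℂ} (hc : c ∈ U) (h0 : ∀ i w, J (i :: w) c = 0) :
    ∀ (n : ℕ) (v w : List κ), v.length + w.length ≤ n → ∀ t ∈ U, ev J t (shr v w) = J v t * J w t := by
  intro n
  induction n with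
  | zero =>
    intro v w hvw t ht
    have h1 : v = [] := List.length_eq_zero_iff.1 (by omega)
    have h2 : w = [] := List.length_eq_zero_iff.1 (by omega)
    subst h1 h2
    rw [shr_nil, ev_e]
    simp [hJ.nil t ht]
  | succ n ih =>
    intro v w hvw
    cases v with
    | nil =>
      intro t ht
      rw [shr_nil, ev_e, List.reverse_reverse, hJ.nil t ht, one_mul]
    | cons a v =>
      cases w with
      | nil =>
        intro t ht
        rw [shr_nil', ev_e, List.reverse_reverse, hJ.nil t ht, mul_one]
      | cons b w =>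
        simp only [List.length_cons] at hvw
        have hd1 : ∀ t ∈ U, HasDerivAt (fun s => ev J s (shr (a :: v) (b :: w)))
            (u a t * (J v t * J (b :: w) t) + u b t * (J (a :: v) t * J w t)) t := by
          intro t ht
          rw [shr_cons]
          simp only [map_add]
          have e1 := ev_snoc_deriv hJ a (shr v (b :: w)) t ht
          have e2 := ev_snoc_deriv hJ b (shr (a :: v) w) t ht
          rw [ih v (b :: w) (by simp only [List.length_cons]; omega) t ht] at e1
          rw [ih (a :: v) w (by simp only [List.length_cons]; omega) t ht] at e2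
          exact e1.add e2
        have hd2 : ∀ t ∈ U, HasDerivAt (fun s => J (a :: v) s * J (b :: w) s)
            (u a t * (J v t * J (b :: w) t) + u b t * (J (a :: v) t * J w t)) t := by
          intro t ht
          exact ((hJ.cons a v t ht).mul (hJ.cons b w t ht)).congr_deriv (by ring)
        have h3 : EqOn (fun s => ev J s (shr (a :: v) (b :: w))) (fun s => J (a :: v) s * J (b :: w) s) U := by
          refine hU.eqOn_of_deriv_eq hUc (fun t ht => (hd1 t ht).differentiableAt.differentiableWithinAt)
            (fun t ht => (hd2 t ht).differentiableAt.differentiableWithinAt) ?_ hc ?_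
          · intro t ht
            rw [(hd1 t ht).deriv, (hd2 t ht).deriv]
          · show ev J c (shr (a :: v) (b :: w)) = J (a :: v) c * J (b :: w) c
            rw [shr_cons, map_add, ev_snoc_zero h0, ev_snoc_zero h0, h0, add_zero, zero_mul]
        exact h3

/-- the evaluation is multiplicative -/
theorem ev_mul {U : Set ℂ} {u : κ → ℂ → ℂ} {J : List κ → ℂ → ℂ} (hU : IsOpen U) (hUc : IsPreconnected U)
    (hJ : Iter U u J) {c : ℂ} (hc : c ∈ U) (h0 : ∀ i w, J (i :: w) c = 0) (f g : V κ) (t : ℂ) (ht : t ∈ U) :
    ev J t (DD.sh f g) = ev J t f * ev J t g := by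
  refine V_induction (p := fun f => ev J t (DD.sh f g) = ev J t f * ev J t g) f ?_ ?_ ?_
  · simp
  · intro f f' hf hf'
    rw [map_add, LinearMap.add_apply, map_add, map_add, hf, hf', add_mul]
  · intro q v
    refine V_induction (p := fun g => ev J t (DD.sh (q • e v) g) = ev J t (q • e v) * ev J t g) g ?_ ?_ ?_
    · simp
    · intro g g' hg hg'
      rw [map_add, map_add, map_add, hg, hg', mul_add]
    · intro r w
      have h1 : DD.sh (q • e v) (r • (e w : V κ)) = q • r • shr v.reverse w.reverse := by
        rw [LinearMap.map_smul₂, map_smul]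
        congr 2
        exact SH_e v w
      rw [h1, map_smul, map_smul, map_smul, map_smul, ev_shr hU hUc hJ hc h0 _ _ _ le_rfl t ht, ev_e, ev_e]
      rw [smul_mul_smul_comm, mul_smul]

/-- the evaluation as a homomorphism of rings -/
noncomputable def evR {U : Set ℂ} {u : κ → ℂ → ℂ} {J : List κ → ℂ → ℂ} (hU : IsOpen U) (hUc : IsPreconnected U)
    (hJ : Iter U u J) {c : ℂ} (hc : c ∈ U) (h0 : ∀ i w, J (i :: w) c = 0) (t : ℂ) (ht : t ∈ U) :
    (DD (A := κ)).Rg →+* ℂ where
  toFun f := ev J t (ofR DD f)
  map_one' := by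
    show ev J t (e []) = 1
    rw [ev_e, List.reverse_nil]
    exact hJ.nil t ht
  map_zero' := map_zero (ev J t)
  map_add' f g := map_add (ev J t) f g
  map_mul' f g := ev_mul hU hUc hJ hc h0 f g t ht

end Pool.Agent.Y900.HY
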